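import Pool.Agent.Q222.RN.Aux0

/-! Project RN: job A2 (the comb). -/

set_option autoImplicit false

open MeasureTheory Filter Topology Set
open scoped ContDiff ENNReal

namespace Pool.Agent.Q222.RN

open Pool.Agent.Q62.RN

/-- convergence of the Riemann sums -/
theorem riemann2 {f : ℝ → ℝ} (hf : Continuous f) {l : ℝ} (hl : 0 < l)
    (hu : ∀ κ > 0, ∃ ρ > 0, ∀ x ∈ Icc 0 l, ∀ y ∈ Icc 0 l, |x - y| ≤ ρ → |f x - f y| ≤ κ) :
    Tendsto (fun N : ℕ => ∑ k ∈ Finset.range N, f (k * (l / N)) * (l / N)) atTop
      (𝓝 (∫ x in (0:ℝ)..l, f x)) := by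
  rw [Metric.tendsto_atTop]
  intro ε hε
  obtain ⟨ρ, hρ, hκ⟩ := hu (ε / (2 * l)) (by positivity)
  obtain ⟨N0, hN0⟩ := exists_nat_gt (l / ρ)
  refine ⟨N0 + 1, fun N hN => ?_⟩
  have hNpos : (0 : ℝ) < N := by
    have : 1 ≤ N := by omega
    exact_mod_cast this
  set d : ℝ := l / N with hd
  have hd0 : 0 < d := div_pos hl hNpos
  have hNd : (N : ℝ) * d = l := by rw [hd]; field_simp
  have hdρ : d ≤ ρ := by
    rw [hd, div_le_iff₀ hNpos]
    rw [div_lt_iff₀ hρ] at hN0
    have h1 : (N0 : ℝ) ≤ N := by exact_mod_cast (by omega : N0 ≤ N)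
    nlinarith
  have hi : ∀ x y, IntervalIntegrable f volume x y := fun x y => hf.intervalIntegrable x y
  have h1 : ∫ x in (0:ℝ)..l, f x = ∑ k ∈ Finset.range N, ∫ x in (k * d)..((k + 1) * d), f x := by
    have h2 := intervalIntegral.sum_integral_adjacent_intervals (f := f) (μ := volume)
      (a := fun k : ℕ => (k : ℝ) * d) (n := N) (fun k _ => hi _ _)
    simp only [Nat.cast_zero, zero_mul, hNd] at h2
    rw [← h2]
    refine Finset.sum_congr rfl fun k _ => ?_
    push_cast
    rfl
  rw [h1, dist_eq_norm, ← Finset.sum_sub_distrib]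
  have h2 : ∀ k ∈ Finset.range N, ‖f (k * d) * d - ∫ x in (k * d)..((k + 1) * d), f x‖ ≤
      ε / (2 * l) * d := by
    intro k hk
    have h3 : f (k * d) * d = ∫ x in (k * d)..((k + 1) * d), f (k * d) := by
      rw [intervalIntegral.integral_const, smul_eq_mul]
      ring
    rw [h3, ← intervalIntegral.integral_sub (by simp) (hi _ _)]
    have hle : (k : ℝ) * d ≤ (k + 1) * d := by nlinarith
    have hk0 : (0 : ℝ) ≤ (k : ℝ) * d := by positivity
    have hkl : ((k : ℝ) + 1) * d ≤ l := by
      have : (k : ℝ) + 1 ≤ N := by exact_mod_cast Finset.mem_range.1 hk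
      calc ((k : ℝ) + 1) * d ≤ N * d := mul_le_mul_of_nonneg_right this hd0.le
        _ = l := hNd
    have h4 := intervalIntegral.norm_integral_le_of_norm_le_const (a := (k : ℝ) * d)
      (b := (k + 1) * d) (f := fun x => f (k * d) - f x) (C := ε / (2 * l)) (by
        intro x hx
        rw [uIoc_of_le hle] at hx
        apply hκ _ ⟨hk0, hle.trans hkl⟩ _ ⟨hk0.trans hx.1.le, hx.2.trans hkl⟩
        rw [abs_sub_comm, abs_of_nonneg (by linarith [hx.1])]
        have := hx.2
        linarith)
    have h5 : |(k + 1 : ℝ) * d - k * d| = d := by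
      rw [show (k + 1 : ℝ) * d - k * d = d by ring, abs_of_pos hd0]
    rwa [h5] at h4
  have h3 := norm_sum_le_of_le _ h2
  rw [Finset.sum_const, Finset.card_range, nsmul_eq_mul] at h3
  have h4 : (N : ℝ) * (ε / (2 * l) * d) = ε / 2 := by
    rw [show (N : ℝ) * (ε / (2 * l) * d) = (ε / (2 * l)) * (N * d) by ring, hNd]
    field_simp
  rw [h4] at h3
  linarith

/-- the measure on isometric images of sets of the line -/
theorem iso_restrict {g : ℝ → ℂ} (hg : Isometry g) {A : Set ℝ} (hA : MeasurableSet A) :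
    H1.restrict (g '' A) = Measure.map g (volume.restrict A) := by
  have hme : MeasurableEmbedding g := hg.isClosedEmbedding.measurableEmbedding
  have h1 : Measure.map g volume = H1.restrict (range g) := by
    rw [← hausdorffMeasure_real]
    exact hg.map_hausdorffMeasure (Or.inl zero_le_one)
  have h2 : H1.restrict (g '' A) = (H1.restrict (range g)).restrict (g '' A) := by
    rw [Measure.restrict_restrict (hme.measurableSet_image.2 hA),
      inter_eq_left.2 (image_subset_range g A)]
  rw [h2, ← h1, hme.restrict_map, preimage_image_eq _ hg.injective]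

theorem iso_meas {g : ℝ → ℂ} (hg : Isometry g) (A : Set ℝ) : H1 (g '' A) = volume A := by
  rw [← hausdorffMeasure_real]
  exact hg.hausdorffMeasure_image (Or.inl zero_le_one) A

theorem iso_int {g : ℝ → ℂ} (hg : Isometry g) {A : Set ℝ} (hA : MeasurableSet A) (φ : ℂ → ℝ) :
    ∫ p in g '' A, φ p ∂H1 = ∫ y in A, φ (g y) := by
  have hme : MeasurableEmbedding g := hg.isClosedEmbedding.measurableEmbedding
  rw [iso_restrict hg hA, hme.integral_map]

/-- the vertical line over `x` -/
noncomputable def vl (x y : ℝ) : ℂ := (x : ℂ) + y * Complex.I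

theorem vl_re (x y : ℝ) : (vl x y).re = x := by simp [vl]
theorem vl_im (x y : ℝ) : (vl x y).im = y := by simp [vl]

theorem vl_iso (x : ℝ) : Isometry (vl x) := by
  apply Isometry.of_dist_eq
  intro y z
  rw [dist_eq_norm, dist_eq_norm]
  have h1 : vl x y - vl x z = ((y - z : ℝ) : ℂ) * Complex.I := by
    unfold vl
    push_cast
    ring
  rw [h1, norm_mul, Complex.norm_I, mul_one, Complex.norm_real]

theorem of_iso : Isometry (Complex.ofReal) := Complex.isometry_ofReal

/-- the comb -/
noncomputable def comb (l : ℝ) (n : ℕ) : Set ℂ :=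
  S0 l ∪ ⋃ k ∈ Finset.range n, vl (k * (l / n)) '' Icc 0 (l / n / 2)

theorem comb_eq (l : ℝ) (n : ℕ) (hl : 0 < l) :
    comb l n = S0 l ∪ ⋃ k ∈ Finset.range n, vl (k * (l / n)) '' Ioc 0 (l / n / 2) := by
  unfold comb
  apply Subset.antisymm
  · rintro p (hp | hp)
    · exact Or.inl hp
    · simp only [mem_iUnion] at hp
      obtain ⟨k, hk, y, hy, rfl⟩ := hp
      rcases hy.1.eq_or_lt with h0 | h0
      · left
        have hk' := Finset.mem_range.1 hk
        have hn : (0 : ℝ) < n := by
          have : 0 < n := by omega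
          exact_mod_cast this
        refine ⟨k * (l / n), ⟨by positivity, ?_⟩, ?_⟩
        · have h1 : (k : ℝ) ≤ n := by exact_mod_cast hk'.le
          calc (k : ℝ) * (l / n) ≤ n * (l / n) := mul_le_mul_of_nonneg_right h1 (by positivity)
            _ = l := by field_simp
        · rw [← h0]
          simp [vl]
      · right
        simp only [mem_iUnion]
        exact ⟨k, hk, y, ⟨h0, hy.2⟩, rfl⟩
  · apply union_subset_union_right
    exact iUnion₂_mono fun k _ => image_mono Ioc_subset_Icc_self

theorem comb_compact (l : ℝ) (n : ℕ) : IsCompact (comb l n) := by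
  unfold comb
  refine (isCompact_Icc.image Complex.continuous_ofReal).union ?_
  exact (Finset.range n).isCompact_biUnion fun k _ => isCompact_Icc.image (vl_iso _).continuous

theorem comb_conn {l : ℝ} (hl : 0 < l) (n : ℕ) : IsConnected (comb l n) := by
  have h0 : (0 : ℂ) ∈ S0 l := ⟨0, ⟨le_rfl, hl.le⟩, by simp⟩
  have hS : IsPreconnected (S0 l) := isPreconnected_Icc.image _ Complex.continuous_ofReal.continuousOn
  refine ⟨⟨0, Or.inl h0⟩, isPreconnected_of_forall 0 ?_⟩
  rintro p (hp | hp)
  · exact ⟨S0 l, subset_union_left, h0, hp, hS⟩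
  · simp only [mem_iUnion] at hp
    obtain ⟨k, hk, hp⟩ := hp
    have hk' := Finset.mem_range.1 hk
    have hn : (0 : ℝ) < n := by
      have : 0 < n := by omega
      exact_mod_cast this
    refine ⟨S0 l ∪ vl (k * (l / n)) '' Icc 0 (l / n / 2), ?_, Or.inl h0, Or.inr hp, ?_⟩
    · apply union_subset_union_right
      intro q hq
      simp only [mem_iUnion]
      exact ⟨k, hk, hq⟩
    · have hV : IsPreconnected (vl (k * (l / n)) '' Icc 0 (l / n / 2)) :=
        isPreconnected_Icc.image _ (vl_iso _).continuous.continuousOn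
      refine hS.union ((k * (l / n) : ℝ) : ℂ) ?_ ?_ hV
      · refine ⟨k * (l / n), ⟨by positivity, ?_⟩, rfl⟩
        have h1 : (k : ℝ) ≤ n := by exact_mod_cast hk'.le
        calc (k : ℝ) * (l / n) ≤ n * (l / n) := mul_le_mul_of_nonneg_right h1 (by positivity)
          _ = l := by field_simp
      · exact ⟨0, ⟨le_rfl, by positivity⟩, by simp [vl]⟩

theorem comb_sub {l : ℝ} (hl : 0 < l) (n : ℕ) : comb l n ⊆ rect 0 l (l / n / 2) := by
  rintro p (hp | hp)
  · obtain ⟨x, hx, rfl⟩ := hp
    refine ⟨by simpa using hx.1, by simpa using hx.2, ?_⟩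
    simp only [Complex.ofReal_im, abs_zero]
    positivity
  · simp only [mem_iUnion] at hp
    obtain ⟨k, hk, y, hy, rfl⟩ := hp
    have hk' := Finset.mem_range.1 hk
    have hn : (0 : ℝ) < n := by
      have : 0 < n := by omega
      exact_mod_cast this
    refine ⟨?_, ?_, ?_⟩
    · rw [vl_re]; positivity
    · rw [vl_re]
      have h1 : (k : ℝ) ≤ n := by exact_mod_cast hk'.le
      calc (k : ℝ) * (l / n) ≤ n * (l / n) := mul_le_mul_of_nonneg_right h1 (by positivity)
        _ = l := by field_simp
    · rw [vl_im, abs_of_nonneg hy.1]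
      exact hy.2

theorem comb_H1 {l : ℝ} (hl : 0 < l) (n : ℕ) : H1 (comb l n) ≤ ENNReal.ofReal (3 / 2 * l) := by
  unfold comb
  refine (measure_union_le _ _).trans ?_
  have h1 : H1 (S0 l) = ENNReal.ofReal l := by
    unfold S0
    rw [iso_meas of_iso, Real.volume_Icc, sub_zero]
  have h2 : H1 (⋃ k ∈ Finset.range n, vl (k * (l / n)) '' Icc 0 (l / n / 2)) ≤
      ENNReal.ofReal (l / 2) := by
    refine (measure_biUnion_finset_le _ _).trans ?_
    have h3 : ∀ k ∈ Finset.range n, H1 (vl (k * (l / n)) '' Icc 0 (l / n / 2)) =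
        ENNReal.ofReal (l / n / 2) := by
      intro k _
      rw [iso_meas (vl_iso _), Real.volume_Icc, sub_zero]
    rw [Finset.sum_congr rfl h3, Finset.sum_const, Finset.card_range, nsmul_eq_mul]
    rw [← ENNReal.ofReal_natCast, ← ENNReal.ofReal_mul (by positivity)]
    apply ENNReal.ofReal_le_ofReal
    rcases Nat.eq_zero_or_pos n with rfl | hn
    · simp; positivity
    · have hn' : (0 : ℝ) < n := by exact_mod_cast hn
      apply le_of_eq
      field_simp
  rw [h1]
  refine (add_le_add le_rfl h2).trans ?_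
  rw [← ENNReal.ofReal_add hl.le (by positivity)]
  apply ENNReal.ofReal_le_ofReal
  linarith

/-- the integral over the comb -/
theorem comb_int {l : ℝ} (hl : 0 < l) (n : ℕ) {φ : ℂ → ℝ} (hφ : Continuous φ) :
    ∫ p in comb l n, φ p ∂H1 = (∫ x in (0:ℝ)..l, φ x) +
      ∑ k ∈ Finset.range n, ∫ y in (0:ℝ)..(l / n / 2), φ (vl (k * (l / n)) y) := by
  have hIc : ∀ T : Set ℂ, T ⊆ comb l n → IntegrableOn φ T H1 := by
    intro T hT
    have h1 : IntegrableOn φ (comb l n) H1 := by
      obtain ⟨C, hC⟩ := (comb_compact l n).exists_bound_of_continuousOn hφ.continuousOn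
      refine IntegrableOn.of_bound ((comb_H1 hl n).trans_lt ENNReal.ofReal_lt_top)
        hφ.aestronglyMeasurable C ?_
      rw [ae_restrict_iff' (comb_compact l n).isClosed.measurableSet]
      exact Eventually.of_forall hC
    exact h1.mono_set hT
  have hVm : ∀ k : ℕ, MeasurableSet (vl (k * (l / n)) '' Ioc 0 (l / n / 2)) := fun k =>
    ((vl_iso _).isClosedEmbedding.measurableEmbedding.measurableSet_image).2 measurableSet_Ioc
  have hsub := comb_eq l n hl
  have hd0 : 0 ≤ l / n / 2 := by positivity
  rw [hsub, setIntegral_union]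
  · congr 1
    · unfold S0
      rw [iso_int of_iso measurableSet_Icc, intervalIntegral.integral_of_le hl.le,
        integral_Icc_eq_integral_Ioc]
    · rw [integral_biUnion_finset]
      · refine Finset.sum_congr rfl fun k _ => ?_
        rw [iso_int (vl_iso _) measurableSet_Ioc, intervalIntegral.integral_of_le hd0]
      · intro k _
        exact hVm k
      · intro j hj k hk hjk
        rw [Function.onFun, disjoint_left]
        rintro _ ⟨y, hy, rfl⟩ ⟨z, hz, hyz⟩
        apply hjk
        have h1 := congrArg Complex.re hyz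
        rw [vl_re, vl_re] at h1
        have hn : (0 : ℝ) < n := by
          have : 0 < n := by
            have := Finset.mem_range.1 hj
            omega
          exact_mod_cast this
        have h2 : (l / n) ≠ 0 := by positivity
        have h3 := mul_right_cancel₀ h2 h1
        exact_mod_cast h3.symm
      · intro k hk
        apply hIc
        rw [hsub]
        intro p hp
        right
        simp only [mem_iUnion]
        exact ⟨k, hk, hp⟩
  · rw [disjoint_left]
    rintro _ ⟨x, hx, rfl⟩ hp
    simp only [mem_iUnion] at hp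
    obtain ⟨k, hk, y, hy, hxy⟩ := hp
    have h1 := congrArg Complex.im hxy
    rw [vl_im, Complex.ofReal_im] at h1
    linarith [hy.1]
  · exact (Finset.range n).measurableSet_biUnion fun k _ => hVm k
  · apply hIc
    rw [hsub]
    exact subset_union_left
  · apply hIc
    rw [hsub]
    exact subset_union_right

theorem t_A2 : S_A2 := by
  intro l Ω hl hΩ hS
  -- the neighbourhood
  obtain ⟨h0, hh0, hrect⟩ : ∃ h₀ > 0, rect 0 l h₀ ⊆ Ω := by
    have hc : IsCompact (S0 l) := isCompact_Icc.image Complex.continuous_ofReal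
    obtain ⟨δ, hδ, h1⟩ := hc.exists_thickening_subset_open hΩ hS
    refine ⟨δ / 2, by positivity, fun p hp => h1 ?_⟩
    rw [Metric.mem_thickening_iff]
    refine ⟨(p.re : ℂ), ⟨p.re, ⟨hp.1, hp.2.1⟩, rfl⟩, ?_⟩
    rw [dist_eq_norm]
    have h2 : p - (p.re : ℂ) = p.im * Complex.I := by
      apply Complex.ext <;> simp
    rw [h2, norm_mul, Complex.norm_I, mul_one, Complex.norm_real, Real.norm_eq_abs]
    have := hp.2.2
    linarith
  have hd : Tendsto (fun N : ℕ => l / (N : ℝ)) atTop (𝓝 0) := tendsto_const_div_atTop_nhds_zero_nat l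
  obtain ⟨n0, hn0⟩ := eventually_atTop.1 (hd.eventually_le_const hh0)
  refine ⟨fun n => comb l (n + n0), fun n => ⟨comb_compact _ _, comb_conn hl _, ?_, comb_H1 hl _⟩, ?_⟩
  · refine (comb_sub hl _).trans (Subset.trans (rect_mono le_rfl le_rfl ?_) hrect)
    have h1 := hn0 (n + n0) (by omega)
    have h2 : 0 ≤ l / ((n + n0 : ℕ) : ℝ) := by positivity
    linarith
  · intro φ hφ
    suffices h : Tendsto (fun n => ∫ p in comb l n, φ p ∂H1) atTop (𝓝 (∫ p, φ p ∂(mu0 l))) from
      h.comp (tendsto_add_atTop_nat n0)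
    have hmu : ∫ p, φ p ∂(mu0 l) = (∫ x in (0:ℝ)..l, φ x) + 1 / 2 * ∫ x in (0:ℝ)..l, φ x := by
      unfold mu0
      rw [integral_smul_measure]
      have h1 : ∫ p in S0 l, φ p ∂H1 = ∫ x in (0:ℝ)..l, φ x := by
        unfold S0
        rw [iso_int of_iso measurableSet_Icc, intervalIntegral.integral_of_le hl.le,
          integral_Icc_eq_integral_Ioc]
      rw [h1]
      norm_num
      ring
    rw [hmu]
    simp only [comb_int hl _ hφ]
    apply Tendsto.const_add
    -- uniform continuity
    have huc : ∀ κ > 0, ∃ ρ > 0, ∀ p ∈ rect 0 l l, ∀ q ∈ rect 0 l l, ‖p - q‖ ≤ ρ →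
        |φ p - φ q| ≤ κ := by
      intro κ hκ
      have h1 := (rect_compact 0 l l).uniformContinuousOn_of_continuous hφ.continuousOn
      rw [Metric.uniformContinuousOn_iff] at h1
      obtain ⟨δ, hδ, h2⟩ := h1 κ hκ
      refine ⟨δ / 2, by positivity, fun p hp q hq hpq => ?_⟩
      have h3 := h2 p hp q hq (by rw [dist_eq_norm]; linarith)
      rw [Real.dist_eq] at h3
      exact h3.le
    have hre : ∀ x ∈ Icc (0:ℝ) l, (x : ℂ) ∈ rect 0 l l := by
      intro x hx
      refine ⟨by simpa using hx.1, by simpa using hx.2, ?_⟩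
      simp only [Complex.ofReal_im, abs_zero]
      exact hl.le
    have hR := riemann2 (f := fun x => φ x) (hφ.comp Complex.continuous_ofReal) hl (by
      intro κ hκ
      obtain ⟨ρ, hρ, h1⟩ := huc κ hκ
      refine ⟨ρ, hρ, fun x hx y hy hxy => ?_⟩
      apply h1 _ (hre x hx) _ (hre y hy)
      rw [← Complex.ofReal_sub, Complex.norm_real]
      exact hxy)
    have hdiff : Tendsto (fun n : ℕ => (∑ k ∈ Finset.range n,
        ∫ y in (0:ℝ)..(l / n / 2), φ (vl (k * (l / n)) y)) -
        1 / 2 * ∑ k ∈ Finset.range n, φ ((k * (l / n) : ℝ) : ℂ) * (l / n)) atTop (𝓝 0) := by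
      rw [Metric.tendsto_atTop]
      intro ε hε
      obtain ⟨ρ, hρ, h1⟩ := huc (ε / l) (by positivity)
      obtain ⟨N, hN⟩ := eventually_atTop.1 (hd.eventually_le_const hρ)
      refine ⟨N + 1, fun n hn => ?_⟩
      have hnN := hN n (by omega)
      have hn' : (0 : ℝ) < n := by
        have : 0 < n := by omega
        exact_mod_cast this
      have hn1 : (1 : ℝ) ≤ n := by
        have : 1 ≤ n := by omega
        exact_mod_cast this
      set d : ℝ := l / n with hdd
      have hd0 : 0 < d := div_pos hl hn'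
      have hNd : (n : ℝ) * d = l := by rw [hdd]; field_simp
      have hdl : d ≤ l := by rw [hdd]; exact div_le_self hl.le hn1
      rw [dist_zero_right, Finset.mul_sum, ← Finset.sum_sub_distrib]
      have h2 : ∀ k ∈ Finset.range n, ‖(∫ y in (0:ℝ)..(d / 2), φ (vl (k * d) y)) -
          1 / 2 * (φ ((k * d : ℝ) : ℂ) * d)‖ ≤ ε / l * (d / 2) := by
        intro k hk
        have hk' := Finset.mem_range.1 hk
        have h3 : 1 / 2 * (φ ((k * d : ℝ) : ℂ) * d) = ∫ y in (0:ℝ)..(d / 2), φ ((k * d : ℝ) : ℂ) := by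
          rw [intervalIntegral.integral_const, smul_eq_mul]
          ring
        have hc : Continuous (fun y => φ (vl (k * d) y)) := hφ.comp (vl_iso _).continuous
        rw [h3, ← intervalIntegral.integral_sub (hc.intervalIntegrable _ _) (by simp)]
        have hk0 : (0 : ℝ) ≤ (k : ℝ) * d := by positivity
        have hkl : (k : ℝ) * d ≤ l := by
          have : (k : ℝ) ≤ n := by exact_mod_cast hk'.le
          calc (k : ℝ) * d ≤ n * d := mul_le_mul_of_nonneg_right this hd0.le
            _ = l := hNd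
        have h4 := intervalIntegral.norm_integral_le_of_norm_le_const (a := (0 : ℝ))
          (b := d / 2) (f := fun y => φ (vl (k * d) y) - φ ((k * d : ℝ) : ℂ)) (C := ε / l) (by
            intro y hy
            rw [uIoc_of_le (by positivity)] at hy
            apply h1 _ _ _ (hre _ ⟨hk0, hkl⟩)
            · have h5 : vl (k * d) y - ((k * d : ℝ) : ℂ) = y * Complex.I := by
                unfold vl
                ring
              rw [h5, norm_mul, Complex.norm_I, mul_one, Complex.norm_real, Real.norm_eq_abs,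
                abs_of_pos hy.1]
              linarith [hy.2]
            · refine ⟨by rw [vl_re]; exact hk0, by rw [vl_re]; exact hkl, ?_⟩
              rw [vl_im, abs_of_pos hy.1]
              linarith [hy.2])
        rwa [sub_zero, abs_of_pos (by positivity : 0 < d / 2)] at h4
      have h3 := norm_sum_le_of_le _ h2
      rw [Finset.sum_const, Finset.card_range, nsmul_eq_mul] at h3
      have h4 : (n : ℝ) * (ε / l * (d / 2)) = ε / 2 := by
        rw [show (n : ℝ) * (ε / l * (d / 2)) = (ε / l) * (n * d) / 2 by ring, hNd]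
        field_simp
      rw [h4] at h3
      linarith
    have h := hdiff.add (hR.const_mul (1 / 2))
    rw [zero_add] at h
    refine h.congr fun n => ?_
    ring

end Pool.Agent.Q222.RN
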