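import Pool.Agent.Q62.RN.Stm

/-! Project RN: common lemmas. -/

set_option autoImplicit false

open MeasureTheory Filter Topology Set
open scoped ContDiff ENNReal

namespace Pool.Agent.Q222.RN

open Pool.Agent.Q62.RN

theorem int_le_of {ν : Measure ℂ} [IsFiniteMeasureOnCompacts ν] {R : Set ℂ} {f : ℂ → ℝ} {c v : ℝ}
    (hc : 0 ≤ c) (hv : 0 ≤ v)
    (h0 : ∀ p, p ∉ R → f p = 0) (hb : ∀ p ∈ R, |f p| ≤ c) (hR : ν R ≤ ENNReal.ofReal v) :
    ∫ p, f p ∂ν ≤ c * v := by
  have h1 : ∫ p, f p ∂ν = ∫ p in R, f p ∂ν := by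
    rw [setIntegral_eq_integral_of_forall_compl_eq_zero]
    exact h0
  rw [h1]
  have h2 : ‖∫ p in R, f p ∂ν‖ ≤ c * ν.real R :=
    norm_setIntegral_le_of_norm_le_const (hR.trans_lt ENNReal.ofReal_lt_top) hb
  have h3 : ν.real R ≤ v := ENNReal.toReal_le_of_le_ofReal hv hR
  calc _ ≤ ‖∫ p in R, f p ∂ν‖ := Real.le_norm_self _
    _ ≤ c * ν.real R := h2
    _ ≤ c * v := mul_le_mul_of_nonneg_left h3 hc

theorem rect_eq (a b h : ℝ) :
    rect a b h = Complex.measurableEquivRealProd ⁻¹' (Icc a b ×ˢ Icc (-h) h) := by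
  ext p
  simp only [rect, mem_ofPred_eq, mem_preimage, Complex.measurableEquivRealProd_apply, mem_prod,
    mem_Icc, abs_le]
  tauto

theorem rect_meas (a b h : ℝ) : MeasurableSet (rect a b h) := by
  rw [rect_eq]
  exact Complex.measurableEquivRealProd.measurable (measurableSet_Icc.prod measurableSet_Icc)

theorem rect_closed (a b h : ℝ) : IsClosed (rect a b h) := by
  unfold rect
  exact (isClosed_le continuous_const Complex.continuous_re).inter
    ((isClosed_le Complex.continuous_re continuous_const).inter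
      (isClosed_le Complex.continuous_im.abs continuous_const))

theorem rect_vol {a b h : ℝ} (hab : a ≤ b) (hh : 0 ≤ h) :
    volume (rect a b h) = ENNReal.ofReal (2 * h * (b - a)) := by
  rw [rect_eq, Complex.volume_preserving_equiv_real_prod.measure_preimage
    (measurableSet_Icc.prod measurableSet_Icc).nullMeasurableSet, Measure.volume_eq_prod,
    Measure.prod_prod, Real.volume_Icc, Real.volume_Icc, ← ENNReal.ofReal_mul (by linarith)]
  congr 1
  ring

theorem rect_compact (a b h : ℝ) : IsCompact (rect a b h) := by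
  apply Metric.isCompact_of_isClosed_isBounded (rect_closed a b h)
  refine (Metric.isBounded_closedBall (x := (0 : ℂ)) (r := max |a| |b| + h)).subset fun p hp => ?_
  rw [mem_closedBall_zero_iff]
  obtain ⟨h1, h2, h3⟩ := hp
  have h4 : |p.re| ≤ max |a| |b| := abs_le_max_abs_abs h1 h2
  exact (Complex.norm_le_abs_re_add_abs_im p).trans (add_le_add h4 h3)

theorem rect_mono {a b a' b' h h' : ℝ} (ha : a' ≤ a) (hb : b ≤ b') (hh : h ≤ h') :
    rect a b h ⊆ rect a' b' h' := fun _ hp => ⟨ha.trans hp.1, hp.2.1.trans hb, hp.2.2.trans hh⟩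

/-! ### partial derivatives -/

theorem gx_cont {u : ℂ → ℝ} (h : ContDiff ℝ ∞ u) : Continuous (gx u) :=
  (h.continuous_fderiv (by simp)).clm_apply continuous_const

theorem gy_cont {u : ℂ → ℝ} (h : ContDiff ℝ ∞ u) : Continuous (gy u) :=
  (h.continuous_fderiv (by simp)).clm_apply continuous_const

theorem g2_cont {u : ℂ → ℝ} (h : ContDiff ℝ ∞ u) : Continuous (g2 u) :=
  ((gx_cont h).pow 2).add ((gy_cont h).pow 2)

theorem fd_supp {u : ℂ → ℝ} {p : ℂ} (h : p ∉ tsupport u) : fderiv ℝ u p = 0 :=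
  image_eq_zero_of_notMem_tsupport (fun h2 => h (tsupport_fderiv_subset ℝ (f := u) h2))

theorem gx_supp {u : ℂ → ℝ} {p : ℂ} (h : p ∉ tsupport u) : gx u p = 0 := by
  unfold gx
  rw [fd_supp h]; simp

theorem gy_supp {u : ℂ → ℝ} {p : ℂ} (h : p ∉ tsupport u) : gy u p = 0 := by
  unfold gy
  rw [fd_supp h]; simp

theorem g2_supp {u : ℂ → ℝ} {p : ℂ} (h : p ∉ tsupport u) : g2 u p = 0 := by
  unfold g2
  rw [gx_supp h, gy_supp h]; simp

theorem gx_cs {u : ℂ → ℝ} (h : HasCompactSupport u) : HasCompactSupport (gx u) :=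
  HasCompactSupport.intro h fun _ hp => gx_supp hp

theorem gy_cs {u : ℂ → ℝ} (h : HasCompactSupport u) : HasCompactSupport (gy u) :=
  HasCompactSupport.intro h fun _ hp => gy_supp hp

theorem g2_cs {u : ℂ → ℝ} (h : HasCompactSupport u) : HasCompactSupport (g2 u) :=
  HasCompactSupport.intro h fun _ hp => g2_supp hp

theorem gx_add {u v : ℂ → ℝ} (hu : ContDiff ℝ ∞ u) (hv : ContDiff ℝ ∞ v) (p : ℂ) :
    gx (fun q => u q + v q) p = gx u p + gx v p := by
  unfold gx
  rw [fderiv_fun_add (hu.differentiable (by simp) p) (hv.differentiable (by simp) p)]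
  rfl

theorem gy_add {u v : ℂ → ℝ} (hu : ContDiff ℝ ∞ u) (hv : ContDiff ℝ ∞ v) (p : ℂ) :
    gy (fun q => u q + v q) p = gy u p + gy v p := by
  unfold gy
  rw [fderiv_fun_add (hu.differentiable (by simp) p) (hv.differentiable (by simp) p)]
  rfl

end Pool.Agent.Q222.RN
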