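import Pool.Agent.Q222.RN.Aux0

/-! Project RN: job C3. -/

set_option autoImplicit false

open MeasureTheory Filter Topology Set
open scoped ContDiff ENNReal

namespace Pool.Agent.Q222.RN

open Pool.Agent.Q62.RN

/-- a closed subset of an open interval lies in a smaller closed interval -/
theorem shrink {K : Set ℝ} (hK : IsClosed K) {a b : ℝ} (hab : a < b) (h : K ⊆ Ioo a b) :
    ∃ a' b', a < a' ∧ a' ≤ b' ∧ b' < b ∧ K ⊆ Icc a' b' := by
  have hc : IsCompact K := isCompact_Icc.of_isClosed_subset hK (h.trans Ioo_subset_Icc_self)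
  rcases K.eq_empty_or_nonempty with rfl | hne
  · exact ⟨(a + b) / 2, (a + b) / 2, by linarith, le_rfl, by linarith, empty_subset _⟩
  · obtain ⟨x, hx, hmin⟩ := hc.exists_isMinOn hne continuousOn_id
    obtain ⟨y, hy, hmax⟩ := hc.exists_isMaxOn hne continuousOn_id
    exact ⟨x, y, (h hx).1, hmin hy, (h hy).2, fun z hz => ⟨hmin hz, hmax hz⟩⟩

/-- a primitive of a compactly supported function of mean zero -/
theorem prim {g : ℝ → ℝ} (hg : ContDiff ℝ ∞ g) {a b M : ℝ} (hab : a < b)
    (hs : tsupport g ⊆ Ioo a b) (hb : ∀ x, |g x| ≤ M) (h0 : ∫ x, g x = 0) :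
    ∃ (G : ℝ → ℝ) (a' b' : ℝ), a < a' ∧ b' < b ∧ ContDiff ℝ ∞ G ∧ (∀ x, HasDerivAt G (g x) x) ∧
      (∀ x, |G x| ≤ M * (b - a)) ∧ (∀ x, G x ≠ 0 → a' ≤ x ∧ x ≤ b') := by
  obtain ⟨a', b', ha, hab', hb', hK⟩ := shrink (isClosed_tsupport g) hab hs
  have hg0 : ∀ x, x ∉ Icc a' b' → g x = 0 := fun x hx =>
    image_eq_zero_of_notMem_tsupport (fun h => hx (hK h))
  have hM : 0 ≤ M := (abs_nonneg _).trans (hb 0)
  set G : ℝ → ℝ := fun x => ∫ t in a..x, g t with hG
  have hd : ∀ x, HasDerivAt G (g x) x := fun x =>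
    (hg.continuous.integral_hasStrictDerivAt a x).hasDerivAt
  have hGs : ContDiff ℝ ∞ G := by
    rw [contDiff_infty_iff_deriv]
    refine ⟨fun x => (hd x).differentiableAt, ?_⟩
    have : deriv G = g := by
      funext x
      exact (hd x).deriv
    rw [this]
    exact hg
  have hint : ∀ x y, IntervalIntegrable g volume x y := fun x y => hg.continuous.intervalIntegrable x y
  have hleft : ∀ x, x < a' → G x = 0 := by
    intro x hx
    have h1 : ∀ t ∈ uIcc a x, g t = 0 := by
      intro t ht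
      apply hg0
      intro h2
      have h3 : t ≤ max a x := ht.2
      have h4 : max a x < a' := max_lt ha hx
      linarith [h2.1]
    show ∫ t in a..x, g t = 0
    rw [intervalIntegral.integral_congr (g := fun _ => (0 : ℝ)) h1]
    simp
  have hfull : ∫ t in a..b, g t = 0 := by
    rw [intervalIntegral.integral_of_le hab.le, setIntegral_eq_integral_of_forall_compl_eq_zero, h0]
    intro x hx
    apply hg0
    intro h2
    exact hx ⟨by linarith [h2.1], by linarith [h2.2]⟩
  have hright : ∀ x, b' < x → G x = 0 := by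
    intro x hx
    have h1 : ∀ t ∈ uIcc b x, g t = 0 := by
      intro t ht
      apply hg0
      intro h2
      have h3 : min b x ≤ t := ht.1
      have h4 : b' < min b x := lt_min hb' hx
      linarith [h2.2]
    show ∫ t in a..x, g t = 0
    rw [← intervalIntegral.integral_add_adjacent_intervals (hint a b) (hint b x), hfull,
      intervalIntegral.integral_congr (g := fun _ => (0 : ℝ)) h1]
    simp
  have hsup : ∀ x, G x ≠ 0 → a' ≤ x ∧ x ≤ b' := by
    intro x hx
    constructor
    · by_contra hcon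
      exact hx (hleft x (not_le.1 hcon))
    · by_contra hcon
      exact hx (hright x (not_le.1 hcon))
  refine ⟨G, a', b', ha, hb', hGs, hd, fun x => ?_, hsup⟩
  by_cases hx : G x = 0
  · rw [hx, abs_zero]
    exact mul_nonneg hM (by linarith)
  · obtain ⟨h1, h2⟩ := hsup x hx
    have h3 : |∫ t in a..x, g t| ≤ M * |x - a| := by
      have := intervalIntegral.norm_integral_le_of_norm_le_const (a := a) (b := x) (f := g) (C := M)
        (fun t _ => hb t)
      simpa using this
    rw [abs_of_pos (by linarith : 0 < x - a)] at h3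
    exact h3.trans (mul_le_mul_of_nonneg_left (by linarith) hM)

theorem w_deriv {G g χ : ℝ → ℝ} {h : ℝ} (hG : ∀ x, HasDerivAt G (g x) x) (hχ : ContDiff ℝ ∞ χ)
    (p : ℂ) :
    gx (fun p => G p.re * χ (p.im / h)) p = g p.re * χ (p.im / h) ∧
    gy (fun p => G p.re * χ (p.im / h)) p = G p.re * (deriv χ (p.im / h) / h) := by
  have h1 : HasFDerivAt (fun p : ℂ => G p.re) (g p.re • Complex.reCLM) p :=
    (hG p.re).comp_hasFDerivAt p Complex.reCLM.hasFDerivAt
  have h2 : HasDerivAt (fun y : ℝ => χ (y / h)) (deriv χ (p.im / h) / h) p.im := by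
    have h3 : HasDerivAt χ (deriv χ (p.im / h)) (p.im / h) :=
      (hχ.differentiable (by simp) _).hasDerivAt
    have h4 : HasDerivAt (fun y : ℝ => y / h) (1 / h) p.im := (hasDerivAt_id p.im).div_const h
    have h5 := h3.comp p.im h4
    rw [mul_one_div] at h5
    exact h5
  have h3 : HasFDerivAt (fun p : ℂ => χ (p.im / h)) ((deriv χ (p.im / h) / h) • Complex.imCLM) p :=
    h2.comp_hasFDerivAt p Complex.imCLM.hasFDerivAt
  have h4 : fderiv ℝ (fun p : ℂ => G p.re * χ (p.im / h)) p =
      G p.re • (deriv χ (p.im / h) / h) • Complex.imCLM + χ (p.im / h) • g p.re • Complex.reCLM :=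
    (h1.mul h3).fderiv
  unfold gx gy
  rw [h4]
  simp
  ring

theorem t_C3 (a1 : S_A1) (c1 : S_C1) : S_C3 := by
  intro l a b h K δ χ ψ S hl ha hab hbl hh hδ hχ hψ hSm hlS hSf hgood
  obtain ⟨hA1, hA2, hA3, hA4, hA5⟩ := a1 l hl
  have hS0m : MeasurableSet (S0 l) := hA3.isClosed.measurableSet
  set R : Set ℂ := (S \ S0 l) ∩ rect a b h with hR
  have hRm : MeasurableSet R := (hSm.diff hS0m).inter (rect_meas _ _ _)
  have hRS : R ⊆ S := fun p hp => hp.1.1
  have hRf : H1 R < ⊤ := (measure_mono hRS).trans_lt hSf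
  obtain ⟨φ, hφs, hφ01, hφt, hφi, hφR⟩ := c1 R a b (δ / 4) hRm hab (by positivity) hRf
    ((measure_mono inter_subset_left).trans hgood.upper)
  have hba : 0 < b - a := by linarith
  have hφpos : 0 < ∫ x, φ x := lt_of_lt_of_le (by linarith) hφi
  -- the integral of `ψ`
  have hψi : ∫ x, ψ x ≤ b - a := by
    have h1 : ∫ x, ψ x = ∫ x in Icc a b, ψ x := by
      rw [setIntegral_eq_integral_of_forall_compl_eq_zero]
      intro x hx
      exact image_eq_zero_of_notMem_tsupport (fun h2 => hx (Ioo_subset_Icc_self (hψ.supp h2)))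
    rw [h1]
    have h2 : ‖∫ x in Icc a b, ψ x‖ ≤ 1 * volume.real (Icc a b) :=
      norm_setIntegral_le_of_norm_le_const (by simp) (fun x _ => by
        rw [Real.norm_eq_abs, abs_of_nonneg (hψ.nonneg x)]; exact hψ.le_one x)
    rw [Real.volume_real_Icc_of_le hab.le, one_mul] at h2
    exact (Real.le_norm_self _).trans h2
  have hψi0 : 0 ≤ ∫ x, ψ x := integral_nonneg hψ.nonneg
  set c : ℝ := (∫ x, ψ x) / ∫ x, φ x with hc
  have hc0 : 0 ≤ c := div_nonneg hψi0 hφpos.le
  have hc4 : c ≤ 4 := by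
    rw [hc, div_le_iff₀ hφpos]
    linarith
  have hφcs : HasCompactSupport φ := isCompact_Icc.of_isClosed_subset (isClosed_tsupport φ)
    (hφt.trans Ioo_subset_Icc_self)
  have hψcs : HasCompactSupport ψ := isCompact_Icc.of_isClosed_subset (isClosed_tsupport ψ)
    (hψ.supp.trans Ioo_subset_Icc_self)
  set g : ℝ → ℝ := fun x => c * φ x - ψ x with hg
  have hgs : ContDiff ℝ ∞ g := (contDiff_const.mul hφs).sub hψ.smooth
  have hg0 : ∫ x, g x = 0 := by
    simp only [hg]
    rw [integral_sub ((hφs.continuous.integrable_of_hasCompactSupport hφcs).const_mul c)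
      (hψ.smooth.continuous.integrable_of_hasCompactSupport hψcs), integral_const_mul, hc,
      div_mul_cancel₀ _ hφpos.ne', sub_self]
  have hgt : tsupport g ⊆ Ioo a b := by
    have h1 : tsupport g ⊆ tsupport φ ∪ tsupport ψ := by
      apply closure_minimal _ ((isClosed_tsupport φ).union (isClosed_tsupport ψ))
      intro x hx
      by_contra hcon
      rw [mem_union, not_or] at hcon
      apply hx
      show c * φ x - ψ x = 0
      rw [image_eq_zero_of_notMem_tsupport hcon.1, image_eq_zero_of_notMem_tsupport hcon.2]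
      ring
    exact h1.trans (union_subset hφt hψ.supp)
  have hgb : ∀ x, |g x| ≤ 4 := by
    intro x
    rw [abs_le]
    have h1 := (hφ01 x).1
    have h2 := (hφ01 x).2
    have h3 := hψ.nonneg x
    have h4 := hψ.le_one x
    simp only [hg]
    constructor <;> nlinarith
  obtain ⟨G, a', b', ha', hb', hGs, hGd, hGb, hGsup⟩ := prim hgs hab hgt hgb hg0
  set w : ℂ → ℝ := fun p => G p.re * χ (p.im / h) with hw
  have hχy : ContDiff ℝ ∞ (fun p : ℂ => χ (p.im / h)) :=
    hχ.smooth.comp (Complex.imCLM.contDiff.div_const h)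
  have hws : ContDiff ℝ ∞ w := (hGs.comp Complex.reCLM.contDiff).mul hχy
  have hgx : ∀ p, gx w p = g p.re * χ (p.im / h) := fun p => (w_deriv hGd hχ.smooth p).1
  have hgy : ∀ p, gy w p = G p.re * (deriv χ (p.im / h) / h) := fun p => (w_deriv hGd hχ.smooth p).2
  have hχim : ∀ y : ℝ, χ (y / h) ≠ 0 → |y| < h := by
    intro y hy
    have h1 := hχ.supp _ hy
    rwa [abs_div, abs_of_pos hh, div_lt_one hh] at h1
  have hwt : tsupport w ⊆ rect a' b' h := by
    apply closure_minimal _ (rect_closed _ _ _)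
    intro p hp
    have h1 : G p.re ≠ 0 := fun h1 => hp (by show G p.re * _ = 0; rw [h1, zero_mul])
    have h2 : χ (p.im / h) ≠ 0 := fun h1 => hp (by show _ * χ (p.im / h) = 0; rw [h1, mul_zero])
    exact ⟨(hGsup _ h1).1, (hGsup _ h1).2, (hχim _ h2).le⟩
  have hwc : HasCompactSupport w := (rect_compact _ _ _).of_isClosed_subset (isClosed_tsupport _) hwt
  refine ⟨w, ⟨hws, hwc, ?_, ?_, ?_, ?_, ?_, ?_, ?_⟩⟩
  · intro p hp
    have h1 : G p.re ≠ 0 := fun h1 => hp (by show G p.re * _ = 0; rw [h1, zero_mul])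
    have h2 : χ (p.im / h) ≠ 0 := fun h1 => hp (by show _ * χ (p.im / h) = 0; rw [h1, mul_zero])
    exact ⟨ha'.trans_le (hGsup _ h1).1, (hGsup _ h1).2.trans_lt hb', hχim _ h2⟩
  · intro p hp
    obtain ⟨h1, h2, h3⟩ := hwt hp
    exact ⟨ha'.trans_le h1, h2.trans_lt hb', h3⟩
  · intro p
    show |G p.re * χ (p.im / h)| ≤ _
    rw [abs_mul, abs_of_nonneg (hχ.nonneg _)]
    calc _ ≤ (4 * (b - a)) * 1 := mul_le_mul (hGb _) (hχ.le_one _) (hχ.nonneg _) (by positivity)
      _ = _ := mul_one _
  · intro p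
    rw [hgx, abs_mul, abs_of_nonneg (hχ.nonneg _)]
    calc _ ≤ 4 * 1 := mul_le_mul (hgb _) (hχ.le_one _) (hχ.nonneg _) (by positivity)
      _ = 4 := mul_one _
  · intro p
    rw [hgy, abs_mul, abs_div, abs_of_pos hh]
    calc _ ≤ (4 * (b - a)) * (K / h) := by
          apply mul_le_mul (hGb _) _ (by positivity) (by positivity)
          have := hχ.deriv_le (p.im / h)
          gcongr
      _ = _ := by ring
  · -- the gain
    have hνf : IsFiniteMeasure (H1.restrict S) := ⟨by rwa [Measure.restrict_apply_univ]⟩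
    have hgxc : Continuous (gx w) := gx_cont hws
    have hIS : IntegrableOn (gx w) S H1 :=
      hgxc.integrable_of_hasCompactSupport (gx_cs hwc)
    have h1 : ∫ p in S, gx w p ∂H1 = (∫ p in S \ S0 l, gx w p ∂H1) + ∫ p in S0 l, gx w p ∂H1 := by
      rw [setIntegral_sdiff hS0m hIS hlS]
      ring
    have h2 : ∫ p in S0 l, gx w p ∂H1 = 0 := by
      rw [hA4 _ hgxc]
      have h3 : ∀ x : ℝ, gx w x = g x := by
        intro x
        rw [hgx]
        simp only [Complex.ofReal_re, Complex.ofReal_im, zero_div]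
        rw [hχ.one 0 (by simp), mul_one]
      simp only [h3]
      rw [intervalIntegral.integral_of_le hl.le, setIntegral_eq_integral_of_forall_compl_eq_zero, hg0]
      intro x hx
      apply image_eq_zero_of_notMem_tsupport
      intro h4
      have h5 := hgt h4
      exact hx ⟨by linarith [h5.1], by linarith [h5.2]⟩
    rw [h1, h2, add_zero]
    -- split
    have hbdI : ∀ f : ℂ → ℝ, Continuous f → (∀ p, |f p| ≤ 1) → IntegrableOn f (S \ S0 l) H1 := by
      intro f hf hfb
      exact IntegrableOn.of_bound ((measure_mono sdiff_subset).trans_lt hSf)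
        hf.aestronglyMeasurable 1 (Eventually.of_forall hfb)
    have hcφ : Continuous (fun p : ℂ => φ p.re * χ (p.im / h)) :=
      (hφs.continuous.comp Complex.continuous_re).mul hχy.continuous
    have hcψ : Continuous (fun p : ℂ => χ (p.im / h) * ψ p.re) :=
      hχy.continuous.mul (hψ.smooth.continuous.comp Complex.continuous_re)
    have hIφ : IntegrableOn (fun p : ℂ => φ p.re * χ (p.im / h)) (S \ S0 l) H1 := by
      apply hbdI _ hcφ
      intro p
      rw [abs_of_nonneg (mul_nonneg (hφ01 _).1 (hχ.nonneg _))]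
      exact mul_le_one₀ (hφ01 _).2 (hχ.nonneg _) (hχ.le_one _)
    have hIψ : IntegrableOn (fun p : ℂ => χ (p.im / h) * ψ p.re) (S \ S0 l) H1 := by
      apply hbdI _ hcψ
      intro p
      rw [abs_of_nonneg (mul_nonneg (hχ.nonneg _) (hψ.nonneg _))]
      exact mul_le_one₀ (hχ.le_one _) (hψ.nonneg _) (hψ.le_one _)
    have h3 : ∫ p in S \ S0 l, gx w p ∂H1 = c * (∫ p in S \ S0 l, φ p.re * χ (p.im / h) ∂H1) -
        ∫ p in S \ S0 l, χ (p.im / h) * ψ p.re ∂H1 := by
      rw [← integral_const_mul, ← integral_sub (hIφ.const_mul c) hIψ]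
      congr 1
      funext p
      rw [hgx]
      simp only [hg]
      ring
    rw [h3]
    have h4 : ∫ p in S \ S0 l, φ p.re * χ (p.im / h) ∂H1 ≤ δ / 4 := by
      have h5 : ∫ p in S \ S0 l, φ p.re * χ (p.im / h) ∂H1 =
          ∫ p in R, φ p.re * χ (p.im / h) ∂H1 := by
        rw [hR, ← setIntegral_indicator (rect_meas _ _ _)]
        apply setIntegral_congr_fun (hSm.diff hS0m)
        intro p _
        show φ p.re * χ (p.im / h) = _
        by_cases hp : p ∈ rect a b h
        · rw [indicator_of_mem hp]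
        · rw [indicator_of_notMem hp]
          by_contra hne
          apply hp
          have h6 : φ p.re ≠ 0 := fun h1 => hne (by rw [h1, zero_mul])
          have h7 : χ (p.im / h) ≠ 0 := fun h1 => hne (by rw [h1, mul_zero])
          have h8 := hφt (subset_tsupport φ h6)
          exact ⟨h8.1.le, h8.2.le, (hχim _ h7).le⟩
      rw [h5]
      refine le_trans ?_ hφR
      have hRS' : R ⊆ S \ S0 l := inter_subset_left
      apply setIntegral_mono_on (hIφ.mono_set hRS') _ hRm
      · intro p _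
        calc φ p.re * χ (p.im / h) ≤ φ p.re * 1 :=
              mul_le_mul_of_nonneg_left (hχ.le_one _) (hφ01 _).1
          _ = φ p.re := mul_one _
      · refine (hbdI (fun p => φ p.re) (hφs.continuous.comp Complex.continuous_re) ?_).mono_set hRS'
        intro p
        rw [abs_of_nonneg (hφ01 _).1]
        exact (hφ01 _).2
    have h5 := hgood.lower
    have h6 : c * (∫ p in S \ S0 l, φ p.re * χ (p.im / h) ∂H1) ≤ δ := by
      have h7 : 0 ≤ ∫ p in S \ S0 l, φ p.re * χ (p.im / h) ∂H1 :=
        integral_nonneg fun p => mul_nonneg (hφ01 _).1 (hχ.nonneg _)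
      calc _ ≤ 4 * (δ / 4) := mul_le_mul hc4 h4 h7 (by norm_num)
        _ = δ := by ring
    linarith
  · -- the mass
    have h1 : S ∩ rect a b h ⊆ R ∪ (S0 l ∩ rect a b h) := by
      intro p hp
      by_cases h2 : p ∈ S0 l
      · exact Or.inr ⟨h2, hp.2⟩
      · exact Or.inl ⟨⟨hp.1, h2⟩, hp.2⟩
    refine (measure_mono h1).trans ((measure_union_le _ _).trans ?_)
    refine (add_le_add hgood.upper (hA5 a b ha hab.le hbl h hh).le).trans ?_
    rw [← ENNReal.ofReal_add (by positivity) hba.le]
    apply ENNReal.ofReal_le_ofReal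
    linarith

end Pool.Agent.Q222.RN
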