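import Pool.Agent.Q222.RN.Aux0

/-! Project RN: job C4. -/

set_option autoImplicit false

open MeasureTheory Filter Topology Set
open scoped ContDiff ENNReal

namespace Pool.Agent.Q222.RN

open Pool.Agent.Q62.RN

theorem int_mu0 (l : ℝ) (φ : ℂ → ℝ) :
    ∫ p, φ p ∂(mu0 l) = 3 / 2 * ∫ p in S0 l, φ p ∂H1 := by
  unfold mu0
  rw [integral_smul_measure]
  norm_num

/-- a trapezoid function -/
noncomputable def trap (a b ε x : ℝ) : ℝ := max 0 (min 1 (min ((x - (a - ε)) / ε) ((b + ε - x) / ε)))

theorem trap_cont (a b ε : ℝ) : Continuous (trap a b ε) := by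
  unfold trap
  fun_prop

theorem trap_nonneg (a b ε x : ℝ) : 0 ≤ trap a b ε x := le_max_left _ _

theorem trap_le_one (a b ε x : ℝ) : trap a b ε x ≤ 1 := max_le zero_le_one (min_le_left _ _)

theorem trap_one {a b ε x : ℝ} (hε : 0 < ε) (h1 : a ≤ x) (h2 : x ≤ b) : trap a b ε x = 1 := by
  apply le_antisymm (trap_le_one _ _ _ _)
  refine le_max_of_le_right (le_min le_rfl (le_min ?_ ?_))
  · rw [le_div_iff₀ hε]; linarith
  · rw [le_div_iff₀ hε]; linarith

theorem trap_zero {a b ε x : ℝ} (hε : 0 < ε) (h : x ∉ Icc (a - ε) (b + ε)) : trap a b ε x = 0 := by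
  apply le_antisymm _ (trap_nonneg _ _ _ _)
  refine max_le le_rfl ?_
  rw [mem_Icc, not_and_or, not_le, not_le] at h
  rcases h with h | h
  · exact (min_le_right _ _).trans ((min_le_left _ _).trans
      (div_nonpos_of_nonpos_of_nonneg (by linarith) hε.le))
  · exact (min_le_right _ _).trans ((min_le_right _ _).trans
      (div_nonpos_of_nonpos_of_nonneg (by linarith) hε.le))

theorem t_C4 (a1 : S_A1) : S_C4 := by
  intro l a b h K χ ψ S hl ha hab hbl hh hχ hψ hSm hS0 hSf hlim
  obtain ⟨hA1, hA2, hA3, hA4, hA5⟩ := a1 l hl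
  have hS0m : MeasurableSet (S0 l) := hA3.isClosed.measurableSet
  have hba : 0 < b - a := by linarith
  have hfin : ∀ n (T : Set ℂ), T ⊆ S n → H1 T < ⊤ := fun n T hT => (measure_mono hT).trans_lt (hSf n)
  -- lower
  have hlow : ∀ᶠ n in atTop, 3 / 8 * (b - a) ≤ ∫ p in S n \ S0 l, χ (p.im / h) * ψ p.re ∂H1 := by
    have hc : Continuous (fun p : ℂ => χ (p.im / h) * ψ p.re) :=
      (hχ.smooth.continuous.comp (Complex.continuous_im.div_const h)).mul
        (hψ.smooth.continuous.comp Complex.continuous_re)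
    have hb1 : ∀ p : ℂ, ‖χ (p.im / h) * ψ p.re‖ ≤ 1 := by
      intro p
      rw [Real.norm_eq_abs, abs_of_nonneg (mul_nonneg (hχ.nonneg _) (hψ.nonneg _))]
      exact mul_le_one₀ (hχ.le_one _) (hψ.nonneg _) (hψ.le_one _)
    have h1 := hlim _ hc
    rw [int_mu0] at h1
    have h2 : ∫ p in S0 l, χ (p.im / h) * ψ p.re ∂H1 = ∫ x, ψ x := by
      rw [hA4 _ hc]
      simp only [Complex.ofReal_re, Complex.ofReal_im, zero_div]
      rw [hχ.one 0 (by simp)]
      simp only [one_mul]
      rw [intervalIntegral.integral_of_le hl.le, setIntegral_eq_integral_of_forall_compl_eq_zero]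
      intro x hx
      apply image_eq_zero_of_notMem_tsupport
      intro h4
      have h5 := hψ.supp h4
      exact hx ⟨by linarith [h5.1], by linarith [h5.2]⟩
    rw [h2] at h1
    have h3 := hψ.int_ge
    have h4 : ∀ᶠ n in atTop, 3 / 8 * (b - a) + (∫ x, ψ x) <
        ∫ p in S n, χ (p.im / h) * ψ p.re ∂H1 := h1.eventually_const_lt (by linarith)
    filter_upwards [h4] with n hn
    rw [setIntegral_sdiff hS0m (IntegrableOn.of_bound (hSf n) hc.aestronglyMeasurable 1
      (Eventually.of_forall hb1)) (hS0 n), h2]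
    linarith
  -- upper
  have hup : ∀ᶠ n in atTop, H1 ((S n \ S0 l) ∩ rect a b h) ≤ ENNReal.ofReal (5 / 8 * (b - a)) := by
    set ε : ℝ := (b - a) / 32 with hε
    have hε0 : 0 < ε := by positivity
    set φ : ℂ → ℝ := fun p => trap a b ε p.re with hφ
    have hc : Continuous φ := (trap_cont a b ε).comp Complex.continuous_re
    have hb1 : ∀ p : ℂ, ‖φ p‖ ≤ 1 := by
      intro p
      rw [Real.norm_eq_abs, abs_of_nonneg (trap_nonneg _ _ _ _)]
      exact trap_le_one _ _ _ _
    have h1 := hlim _ hc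
    rw [int_mu0, hA4 _ hc] at h1
    have h2 : ∫ x in (0 : ℝ)..l, φ x ≤ b - a + 2 * ε := by
      rw [intervalIntegral.integral_of_le hl.le]
      have h3 : ∫ x in Ioc 0 l, φ (x : ℂ) = ∫ x in Ioc 0 l ∩ Icc (a - ε) (b + ε), φ (x : ℂ) := by
        rw [← setIntegral_indicator measurableSet_Icc]
        apply setIntegral_congr_fun measurableSet_Ioc
        intro x _
        show φ (x : ℂ) = _
        by_cases hx : x ∈ Icc (a - ε) (b + ε)
        · rw [indicator_of_mem hx]
        · rw [indicator_of_notMem hx]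
          show trap a b ε (x : ℂ).re = 0
          rw [Complex.ofReal_re]
          exact trap_zero hε0 hx
      rw [h3]
      have h4 : volume (Ioc 0 l ∩ Icc (a - ε) (b + ε)) < ⊤ :=
        (measure_mono inter_subset_right).trans_lt (by simp)
      have h5 := norm_setIntegral_le_of_norm_le_const (f := fun x : ℝ => φ (x : ℂ)) (C := 1) h4
        (fun x _ => hb1 x)
      have h6 : volume.real (Ioc 0 l ∩ Icc (a - ε) (b + ε)) ≤ b - a + 2 * ε := by
        have h7 : volume.real (Ioc 0 l ∩ Icc (a - ε) (b + ε)) ≤ volume.real (Icc (a - ε) (b + ε)) :=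
          measureReal_mono inter_subset_right (by simp)
        rw [Real.volume_real_Icc_of_le (by linarith)] at h7
        linarith
      linarith [Real.le_norm_self (∫ x in Ioc 0 l ∩ Icc (a - ε) (b + ε), φ (x : ℂ))]
    have h3 : ∀ᶠ n in atTop, ∫ p in S n, φ p ∂H1 < 3 / 2 * (b - a + 2 * ε) + ε :=
      h1.eventually_lt_const (by linarith)
    filter_upwards [h3] with n hn
    have hI : IntegrableOn φ (S n) H1 := IntegrableOn.of_bound (hSf n) hc.aestronglyMeasurable 1
      (Eventually.of_forall hb1)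
    have h4 : H1.real (S n ∩ rect a b h) ≤ ∫ p in S n, φ p ∂H1 := by
      have h5 : H1.real (S n ∩ rect a b h) = ∫ p in S n ∩ rect a b h, φ p ∂H1 := by
        rw [setIntegral_congr_fun (g := fun _ => (1 : ℝ)) ((hSm n).inter (rect_meas _ _ _))]
        · simp
        · intro p hp
          exact trap_one hε0 hp.2.1 hp.2.2.1
      rw [h5]
      apply setIntegral_mono_set hI
      · exact Eventually.of_forall fun p => trap_nonneg _ _ _ _
      · exact (show S n ∩ rect a b h ⊆ S n from inter_subset_left).eventuallyLE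
    have h5 : H1.real (S n ∩ rect a b h) = H1.real ((S n \ S0 l) ∩ rect a b h) +
        H1.real (S0 l ∩ rect a b h) := by
      have hdj : Disjoint ((S n \ S0 l) ∩ rect a b h) (S0 l ∩ rect a b h) := by
        rw [disjoint_left]
        rintro p ⟨⟨-, h6⟩, -⟩ ⟨h7, -⟩
        exact h6 h7
      rw [← measureReal_union hdj (hS0m.inter (rect_meas _ _ _))
        (hfin n _ (inter_subset_left.trans sdiff_subset)).ne
        (hfin n _ (inter_subset_left.trans (hS0 n))).ne]
      congr 1
      ext p
      have := @hS0 n p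
      simp only [mem_inter_iff, mem_union, Set.mem_sdiff]
      tauto
    have h6 : H1.real (S0 l ∩ rect a b h) = b - a := by
      rw [Measure.real, hA5 a b ha hab.le hbl h hh, ENNReal.toReal_ofReal hba.le]
    rw [ENNReal.le_ofReal_iff_toReal_le (hfin n _ (inter_subset_left.trans sdiff_subset)).ne
      (by positivity)]
    rw [h6] at h5
    have h7 : (H1 ((S n \ S0 l) ∩ rect a b h)).toReal = H1.real ((S n \ S0 l) ∩ rect a b h) := rfl
    rw [h7]
    linarith
  filter_upwards [hlow, hup] with n h1 h2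
  exact ⟨h2, h1⟩

end Pool.Agent.Q222.RN
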