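import Pool.Agent.Q222.RN.Aux0

/-! Project RN: job D1. -/

set_option autoImplicit false

open MeasureTheory Filter Topology Set
open scoped ContDiff ENNReal

namespace Pool.Agent.Q222.RN

open Pool.Agent.Q62.RN

/-- convergence of the Riemann sums of a uniformly continuous function -/
theorem riemann {f : ℝ → ℝ} (hf : Continuous f) {l : ℝ} (hl : 0 < l)
    (hu : ∀ κ > 0, ∃ ρ > 0, ∀ x y : ℝ, |x - y| ≤ ρ → |f x - f y| ≤ κ) :
    Tendsto (fun N : ℕ => ∑ k ∈ Finset.range N, f (k * (l / N)) * (l / N)) atTop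
      (𝓝 (∫ x in (0:ℝ)..l, f x)) := by
  rw [Metric.tendsto_atTop]
  intro ε hε
  obtain ⟨ρ, hρ, hκ⟩ := hu (ε / (2 * l)) (by positivity)
  obtain ⟨N0, hN0⟩ := exists_nat_gt (l / ρ)
  refine ⟨N0 + 1, fun N hN => ?_⟩
  have hNpos : (0 : ℝ) < N := by
    have : 1 ≤ N := by omega
    exact_mod_cast this
  set d : ℝ := l / N with hd
  have hd0 : 0 < d := div_pos hl hNpos
  have hNd : (N : ℝ) * d = l := by rw [hd]; field_simp
  have hdρ : d ≤ ρ := by
    rw [hd, div_le_iff₀ hNpos]
    rw [div_lt_iff₀ hρ] at hN0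
    have h1 : (N0 : ℝ) ≤ N := by exact_mod_cast (by omega : N0 ≤ N)
    nlinarith
  have hi : ∀ x y, IntervalIntegrable f volume x y := fun x y => hf.intervalIntegrable x y
  have h1 : ∫ x in (0:ℝ)..l, f x = ∑ k ∈ Finset.range N, ∫ x in (k * d)..((k + 1) * d), f x := by
    have h2 := intervalIntegral.sum_integral_adjacent_intervals (f := f) (μ := volume)
      (a := fun k : ℕ => (k : ℝ) * d) (n := N) (fun k _ => hi _ _)
    simp only [Nat.cast_zero, zero_mul, hNd] at h2
    rw [← h2]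
    refine Finset.sum_congr rfl fun k _ => ?_
    push_cast
    rfl
  rw [h1, dist_eq_norm, ← Finset.sum_sub_distrib]
  have h2 : ∀ k ∈ Finset.range N, ‖f (k * d) * d - ∫ x in (k * d)..((k + 1) * d), f x‖ ≤
      ε / (2 * l) * d := by
    intro k _
    have h3 : f (k * d) * d = ∫ x in (k * d)..((k + 1) * d), f (k * d) := by
      rw [intervalIntegral.integral_const, smul_eq_mul]
      ring
    rw [h3, ← intervalIntegral.integral_sub (by simp) (hi _ _)]
    have hle : (k : ℝ) * d ≤ (k + 1) * d := by nlinarith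
    have h4 := intervalIntegral.norm_integral_le_of_norm_le_const (a := (k : ℝ) * d)
      (b := (k + 1) * d) (f := fun x => f (k * d) - f x) (C := ε / (2 * l)) (by
        intro x hx
        rw [uIoc_of_le hle] at hx
        apply hκ
        rw [abs_sub_comm, abs_of_nonneg (by linarith [hx.1])]
        have := hx.2
        linarith)
    have h5 : |(k + 1 : ℝ) * d - k * d| = d := by
      rw [show (k + 1 : ℝ) * d - k * d = d by ring, abs_of_pos hd0]
    rwa [h5] at h4
  have h3 := norm_sum_le_of_le _ h2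
  rw [Finset.sum_const, Finset.card_range, nsmul_eq_mul] at h3
  have h4 : (N : ℝ) * (ε / (2 * l) * d) = ε / 2 := by
    rw [show (N : ℝ) * (ε / (2 * l) * d) = (ε / (2 * l)) * (N * d) by ring, hNd]
    field_simp
  rw [h4] at h3
  linarith

theorem t_D1 : S_D1 := by
  intro l Ω u hl hΩ hS ⟨hus, huc, huΩ⟩
  obtain ⟨B1, hB1⟩ := (gx_cs huc).exists_bound_of_continuous (gx_cont hus)
  obtain ⟨B2, hB2⟩ := (gy_cs huc).exists_bound_of_continuous (gy_cont hus)
  set B : ℝ := max (max B1 B2) 1 with hB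
  have hBp : 0 < B := lt_of_lt_of_le one_pos (le_max_right _ _)
  have hBx : ∀ p, |gx u p| ≤ B := fun p =>
    (hB1 p).trans ((le_max_left _ _).trans (le_max_left _ _))
  have hBy : ∀ p, |gy u p| ≤ B := fun p =>
    (hB2 p).trans ((le_max_right _ _).trans (le_max_left _ _))
  have huc2 : UniformContinuous (gx u) :=
    (gx_cs huc).uniformContinuous_of_continuous (gx_cont hus)
  have hunif : ∀ κ > 0, ∃ ρ > 0, ∀ p q : ℂ, ‖p - q‖ ≤ ρ → |gx u p - gx u q| ≤ κ := by
    intro κ hκ
    obtain ⟨δ, hδ, h1⟩ := Metric.uniformContinuous_iff.1 huc2 κ hκ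
    refine ⟨δ / 2, by positivity, fun p q hpq => ?_⟩
    have h2 := h1 (a := p) (b := q) (by rw [dist_eq_norm]; linarith)
    rw [Real.dist_eq] at h2
    exact h2.le
  refine ⟨⟨B, hBp, fun p => ⟨hBx p, hBy p⟩⟩, hunif, ?_, ?_⟩
  · have hc : IsCompact (S0 l) := isCompact_Icc.image Complex.continuous_ofReal
    obtain ⟨δ, hδ, h1⟩ := hc.exists_thickening_subset_open hΩ hS
    refine ⟨δ / 2, by positivity, fun p hp => h1 ?_⟩
    rw [Metric.mem_thickening_iff]
    refine ⟨(p.re : ℂ), ⟨p.re, ⟨hp.1, hp.2.1⟩, rfl⟩, ?_⟩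
    rw [dist_eq_norm]
    have h2 : p - (p.re : ℂ) = p.im * Complex.I := by
      apply Complex.ext <;> simp
    rw [h2, norm_mul, Complex.norm_I, mul_one, Complex.norm_real, Real.norm_eq_abs]
    have := hp.2.2
    linarith
  · have hfc : Continuous (fun x : ℝ => gx u x ^ 2) :=
      ((gx_cont hus).comp Complex.continuous_ofReal).pow 2
    apply riemann hfc hl
    intro κ hκ
    obtain ⟨ρ, hρ, h1⟩ := hunif (κ / (2 * B)) (by positivity)
    refine ⟨ρ, hρ, fun x y hxy => ?_⟩
    have h2 := h1 x y (by rw [← Complex.ofReal_sub, Complex.norm_real]; exact hxy)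
    have h3 : gx u x ^ 2 - gx u y ^ 2 = (gx u x - gx u y) * (gx u x + gx u y) := by ring
    rw [h3, abs_mul]
    have h4 : |gx u x + gx u y| ≤ 2 * B := (abs_add_le _ _).trans (by linarith [hBx x, hBx y])
    calc _ ≤ κ / (2 * B) * (2 * B) := mul_le_mul h2 h4 (abs_nonneg _) (by positivity)
      _ = κ := by field_simp

end Pool.Agent.Q222.RN
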