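import Pool.Agent.Q222.RN.Aux0

/-! Project RN: job D2. -/

set_option autoImplicit false

open MeasureTheory Filter Topology Set
open scoped ContDiff ENNReal

namespace Pool.Agent.Q222.RN

open Pool.Agent.Q62.RN

section

variable {N : ℕ} {d h K B : ℝ} {S : Set ℂ} {a : ℕ → ℝ} {w : ℕ → ℂ → ℝ}

/-- the sum -/
noncomputable def WW (N : ℕ) (a : ℕ → ℝ) (w : ℕ → ℂ → ℝ) (p : ℂ) : ℝ :=
  ∑ k ∈ Finset.range N, a k / 64 * w k p

theorem WW_smooth (hs : ∀ k < N, ContDiff ℝ ∞ (w k)) : ContDiff ℝ ∞ (WW N a w) := by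
  unfold WW
  exact ContDiff.sum fun k hk => contDiff_const.mul (hs k (Finset.mem_range.1 hk))

theorem WW_gx (hs : ∀ k < N, ContDiff ℝ ∞ (w k)) (p : ℂ) :
    gx (WW N a w) p = ∑ k ∈ Finset.range N, a k / 64 * gx (w k) p := by
  unfold gx WW
  rw [fderiv_fun_sum (fun k hk => ((contDiff_const.mul
    (hs k (Finset.mem_range.1 hk))).differentiable (n := ∞) (by simp) p)), _root_.sum_apply]
  refine Finset.sum_congr rfl fun k hk => ?_
  rw [fderiv_const_mul ((hs k (Finset.mem_range.1 hk)).differentiable (by simp) p)]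
  simp

theorem WW_gy (hs : ∀ k < N, ContDiff ℝ ∞ (w k)) (p : ℂ) :
    gy (WW N a w) p = ∑ k ∈ Finset.range N, a k / 64 * gy (w k) p := by
  unfold gy WW
  rw [fderiv_fun_sum (fun k hk => ((contDiff_const.mul
    (hs k (Finset.mem_range.1 hk))).differentiable (n := ∞) (by simp) p)), _root_.sum_apply]
  refine Finset.sum_congr rfl fun k hk => ?_
  rw [fderiv_const_mul ((hs k (Finset.mem_range.1 hk)).differentiable (by simp) p)]
  simp

/-- at most one of the corrections is active -/
theorem one_active (hc : ∀ k < N, ∀ p ∈ tsupport (w k), k * d < p.re ∧ p.re < (k + 1) * d ∧ |p.im| ≤ h)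
    (hd : 0 < d) (p : ℂ) :
    (∀ k < N, p ∉ tsupport (w k)) ∨
      ∃ k0 < N, p ∈ tsupport (w k0) ∧ ∀ k < N, k ≠ k0 → p ∉ tsupport (w k) := by
  by_cases hx : ∀ k < N, p ∉ tsupport (w k)
  · exact Or.inl hx
  · right
    push Not at hx
    obtain ⟨k0, hk0, hp0⟩ := hx
    refine ⟨k0, hk0, hp0, fun k hk hne hp => ?_⟩
    obtain ⟨h1, h2, -⟩ := hc k0 hk0 p hp0
    obtain ⟨h3, h4, -⟩ := hc k hk p hp
    rcases Nat.lt_or_gt_of_ne hne with hlt | hlt
    · have h5 : (k : ℝ) + 1 ≤ k0 := by exact_mod_cast hlt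
      have h6 : ((k : ℝ) + 1) * d ≤ k0 * d := mul_le_mul_of_nonneg_right h5 hd.le
      linarith
    · have h5 : (k0 : ℝ) + 1 ≤ k := by exact_mod_cast hlt
      have h6 : ((k0 : ℝ) + 1) * d ≤ k * d := mul_le_mul_of_nonneg_right h5 hd.le
      linarith

theorem sum_active {F : ℕ → ℂ → ℝ} {p : ℂ} {k0 : ℕ} (hk0 : k0 < N)
    (h : ∀ k < N, k ≠ k0 → p ∉ tsupport (w k)) (hF : ∀ k, p ∉ tsupport (w k) → F k p = 0) :
    ∑ k ∈ Finset.range N, F k p = F k0 p := by
  rw [Finset.sum_eq_single_of_mem k0 (Finset.mem_range.2 hk0)]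
  intro k hk hne
  exact hF k (h k (Finset.mem_range.1 hk) hne)

end

theorem t_D2 : S_D2 := by
  intro l h K B κ m N Ω S u a w fp hl hh hK hB hκ hm hN hΩ hSm hlS hSH hu hub hfp hcell
  obtain ⟨hus, huc, huΩ⟩ := hu
  set d : ℝ := l / N with hd
  have hN' : (0 : ℝ) < N := by exact_mod_cast hN
  have hd0 : 0 < d := div_pos hl hN'
  have hNd : N * d = l := by rw [hd]; field_simp
  set t : ℝ := K * d / h with ht
  have ht0 : 0 ≤ t := by positivity
  have hw : ∀ k : ℕ, ((k : ℝ) + 1) * d - k * d = d := fun k => by ring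
  -- the properties of the corrections
  have hs : ∀ k < N, ContDiff ℝ ∞ (w k) := fun k hk => (hcell k hk).2.2.smooth
  have hcs : ∀ k < N, HasCompactSupport (w k) := fun k hk => (hcell k hk).2.2.cpt
  have hsupp : ∀ k < N, ∀ p ∈ tsupport (w k), k * d < p.re ∧ p.re < (k + 1) * d ∧ |p.im| ≤ h :=
    fun k hk => (hcell k hk).2.2.supp'
  have hbd : ∀ k < N, ∀ p, |w k p| ≤ 4 * d := by
    intro k hk p
    have := (hcell k hk).2.2.bd p
    rwa [hw] at this
  have hbx : ∀ k < N, ∀ p, |gx (w k) p| ≤ 4 := fun k hk => (hcell k hk).2.2.bdx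
  have hby : ∀ k < N, ∀ p, |gy (w k) p| ≤ 4 * t := by
    intro k hk p
    have := (hcell k hk).2.2.bdy p
    rw [hw] at this
    calc _ ≤ _ := this
      _ = _ := by rw [ht]; ring
  have hgain : ∀ k < N, ∫ p in S, gx (w k) p ∂H1 ≤ -(3 / 8) * d + d / 64 := by
    intro k hk
    have := (hcell k hk).2.2.gain
    rwa [hw] at this
  have hmass : ∀ k < N, H1 (S ∩ rect (k * d) ((k + 1) * d) h) ≤ ENNReal.ofReal (13 / 8 * d) := by
    intro k hk
    have := (hcell k hk).2.2.mass
    rwa [hw] at this
  have hak : ∀ k < N, |a k| ≤ B := fun k hk => (hcell k hk).1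
  have hdev : ∀ k < N, ∀ p ∈ rect (k * d) ((k + 1) * d) h, |gx u p - a k| ≤ κ :=
    fun k hk => (hcell k hk).2.1
  have hrk : ∀ k < N, rect (k * d) ((k + 1) * d) h ⊆ rect 0 l h := by
    intro k hk
    apply rect_mono (by positivity) _ le_rfl
    have : (k : ℝ) + 1 ≤ N := by exact_mod_cast hk
    calc ((k : ℝ) + 1) * d ≤ N * d := mul_le_mul_of_nonneg_right this hd0.le
      _ = l := hNd
  have hsr : ∀ k < N, tsupport (w k) ⊆ rect (k * d) ((k + 1) * d) h := fun k hk p hp =>
    ⟨(hsupp k hk p hp).1.le, (hsupp k hk p hp).2.1.le, (hsupp k hk p hp).2.2⟩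
  have hWs : ContDiff ℝ ∞ (WW N a w) := WW_smooth hs
  -- pointwise facts
  have hpt : ∀ p, |WW N a w p| ≤ B * d / 16 ∧ |gx (WW N a w) p| ≤ B / 16 ∧
      |gy (WW N a w) p| ≤ B * t / 16 ∧
      (gx (WW N a w) p) ^ 2 = ∑ k ∈ Finset.range N, (a k / 64) ^ 2 * (gx (w k) p) ^ 2 := by
    intro p
    rcases one_active hsupp hd0 p with hp | ⟨k0, hk0, hp0, hp⟩
    · have h1 : WW N a w p = 0 := by
        unfold WW
        refine Finset.sum_eq_zero fun k hk => ?_
        rw [image_eq_zero_of_notMem_tsupport (hp k (Finset.mem_range.1 hk)), mul_zero]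
      have h2 : gx (WW N a w) p = 0 := by
        rw [WW_gx hs]
        refine Finset.sum_eq_zero fun k hk => ?_
        rw [gx_supp (hp k (Finset.mem_range.1 hk)), mul_zero]
      have h3 : gy (WW N a w) p = 0 := by
        rw [WW_gy hs]
        refine Finset.sum_eq_zero fun k hk => ?_
        rw [gy_supp (hp k (Finset.mem_range.1 hk)), mul_zero]
      have h4 : ∑ k ∈ Finset.range N, (a k / 64) ^ 2 * (gx (w k) p) ^ 2 = 0 := by
        refine Finset.sum_eq_zero fun k hk => ?_
        rw [gx_supp (hp k (Finset.mem_range.1 hk))]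
        ring
      rw [h1, h2, h3, h4]
      refine ⟨?_, ?_, ?_, by ring⟩ <;> simp <;> positivity
    · have h1 : WW N a w p = a k0 / 64 * w k0 p :=
        sum_active (F := fun k p => a k / 64 * w k p) hk0 hp
          (fun k hk => by simp only [image_eq_zero_of_notMem_tsupport hk, mul_zero])
      have h2 : gx (WW N a w) p = a k0 / 64 * gx (w k0) p := by
        rw [WW_gx hs]
        exact sum_active (F := fun k p => a k / 64 * gx (w k) p) hk0 hp
          (fun k hk => by simp only [gx_supp hk, mul_zero])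
      have h3 : gy (WW N a w) p = a k0 / 64 * gy (w k0) p := by
        rw [WW_gy hs]
        exact sum_active (F := fun k p => a k / 64 * gy (w k) p) hk0 hp
          (fun k hk => by simp only [gy_supp hk, mul_zero])
      have h4 : ∑ k ∈ Finset.range N, (a k / 64) ^ 2 * (gx (w k) p) ^ 2 =
          (a k0 / 64) ^ 2 * (gx (w k0) p) ^ 2 :=
        sum_active (F := fun k p => (a k / 64) ^ 2 * (gx (w k) p) ^ 2) hk0 hp
          (fun k hk => by simp only [gx_supp hk]; ring)
      have ha : |a k0 / 64| ≤ B / 64 := by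
        rw [abs_div, abs_of_pos (by norm_num : (0 : ℝ) < 64)]
        have := hak k0 hk0
        gcongr
      rw [h1, h2, h3, h4]
      refine ⟨?_, ?_, ?_, by ring⟩
      · rw [abs_mul]
        calc _ ≤ (B / 64) * (4 * d) := mul_le_mul ha (hbd k0 hk0 p) (abs_nonneg _) (by positivity)
          _ = _ := by ring
      · rw [abs_mul]
        calc _ ≤ (B / 64) * 4 := mul_le_mul ha (hbx k0 hk0 p) (abs_nonneg _) (by positivity)
          _ = _ := by ring
      · rw [abs_mul]
        calc _ ≤ (B / 64) * (4 * t) := mul_le_mul ha (hby k0 hk0 p) (abs_nonneg _) (by positivity)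
          _ = _ := by ring
  -- support of `W`
  have hWt : tsupport (WW N a w) ⊆ rect 0 l h := by
    apply closure_minimal _ (rect_closed 0 l h)
    intro p hp
    by_contra hcon
    apply hp
    unfold WW
    refine Finset.sum_eq_zero fun k hk => ?_
    have hk' := Finset.mem_range.1 hk
    rw [image_eq_zero_of_notMem_tsupport (fun h1 => hcon (hrk k hk' (hsr k hk' h1))), mul_zero]
  have hWc : HasCompactSupport (WW N a w) := (rect_compact 0 l h).of_isClosed_subset
    (isClosed_tsupport _) hWt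
  have hv : (fun p => u p + ∑ k ∈ Finset.range N, a k / 64 * w k p) = fun p => u p + WW N a w p := rfl
  rw [hv]
  have hvs : ContDiff ℝ ∞ (fun p => u p + WW N a w p) := hus.add hWs
  have hvt : tsupport (fun p => u p + WW N a w p) ⊆ tsupport u ∪ rect 0 l h := by
    apply closure_minimal _ ((isClosed_tsupport u).union (rect_closed 0 l h))
    intro p hp
    by_contra hcon
    rw [mem_union, not_or] at hcon
    apply hp
    show u p + WW N a w p = 0
    rw [image_eq_zero_of_notMem_tsupport hcon.1,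
      image_eq_zero_of_notMem_tsupport (fun h1 => hcon.2 (hWt h1)), add_zero]
  refine ⟨⟨hvs, ?_, hvt.trans (union_subset huΩ hΩ)⟩, ?_⟩
  · exact (huc.isCompact.union (rect_compact 0 l h)).of_isClosed_subset (isClosed_tsupport _) hvt
  -- the measure on `S`
  set ν : Measure ℂ := H1.restrict S with hν
  have hνf : IsFiniteMeasure ν := by
    refine ⟨?_⟩
    rw [hν, Measure.restrict_apply_univ]
    exact hSH.trans_lt ENNReal.ofReal_lt_top
  have hνu : ν univ ≤ ENNReal.ofReal (2 * l) := by
    rw [hν, Measure.restrict_apply_univ]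
    exact hSH
  -- integrability
  have hint : ∀ (f : ℂ → ℝ), Continuous f → HasCompactSupport f → Integrable f ν := fun f h1 h2 =>
    h1.integrable_of_hasCompactSupport h2
  have hintv : ∀ (f : ℂ → ℝ), Continuous f → HasCompactSupport f → Integrable f volume :=
    fun f h1 h2 => h1.integrable_of_hasCompactSupport h2
  have hcgu := gx_cont hus
  have hcgyu := gy_cont hus
  have hcgW := gx_cont hWs
  have hcgyW := gy_cont hWs
  -- the cross term
  set Cr : ℂ → ℝ := fun p => gx u p * gx (WW N a w) p + gy u p * gy (WW N a w) p +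
    g2 (WW N a w) p / 2 with hCr
  have hCrc : Continuous Cr := ((hcgu.mul hcgW).add (hcgyu.mul hcgyW)).add ((g2_cont hWs).div_const 2)
  have hCr0 : ∀ p, p ∉ rect 0 l h → Cr p = 0 := by
    intro p hp
    have h1 : p ∉ tsupport (WW N a w) := fun h2 => hp (hWt h2)
    simp only [hCr, gx_supp h1, gy_supp h1, g2_supp h1]
    ring
  have hCrs : HasCompactSupport Cr := HasCompactSupport.intro (rect_compact 0 l h) hCr0
  have hg2 : ∀ p, g2 (fun p => u p + WW N a w p) p = g2 u p + 2 * Cr p := by
    intro p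
    simp only [hCr]
    unfold g2
    rw [gx_add hus hWs, gy_add hus hWs]
    ring
  have hJ : J m fp (Measure.dirac 0) ν (fun p => u p + WW N a w p) =
      J m fp (Measure.dirac 0) ν u + ((∫ p, Cr p) + m * (∫ p, Cr p ∂ν) -
        ((∫ p, WW N a w p ∂fp) - WW N a w 0)) := by
    unfold J
    simp only [hg2]
    rw [integral_add (hintv _ (g2_cont hus) (g2_cs huc)) ((hintv _ hCrc hCrs).const_mul 2),
      integral_add (hint _ (g2_cont hus) (g2_cs huc)) ((hint _ hCrc hCrs).const_mul 2),
      integral_const_mul, integral_const_mul,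
      integral_add (hus.continuous.integrable_of_hasCompactSupport huc)
        (hWs.continuous.integrable_of_hasCompactSupport hWc),
      integral_add (hus.continuous.integrable_of_hasCompactSupport huc)
        (hWs.continuous.integrable_of_hasCompactSupport hWc)]
    simp only [integral_dirac]
    ring
  rw [hJ]
  -- first bracket
  have hsq : ∀ {x y : ℝ}, |x| ≤ y → x ^ 2 ≤ y ^ 2 := fun h1 => sq_le_sq' (abs_le.1 h1).1 (abs_le.1 h1).2
  have hmul : ∀ {x y x' y' : ℝ}, |x| ≤ x' → |y| ≤ y' → |x * y| ≤ x' * y' := fun h1 h2 => by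
    rw [abs_mul]
    exact mul_le_mul h1 h2 (abs_nonneg _) ((abs_nonneg _).trans h1)
  have hI1 : ∫ p, Cr p ≤ B ^ 2 * (1 + t) ^ 2 * (2 * h * (l - 0)) := by
    apply int_le_of (by positivity) (by rw [sub_zero]; positivity) hCr0
    · intro p _
      obtain ⟨-, h1, h2, -⟩ := hpt p
      obtain ⟨h3, h4⟩ := hub p
      have h5 := hmul h3 h1
      have h6 := hmul h4 h2
      have h7 := hsq h1
      have h8 := hsq h2
      have h9 : |g2 (WW N a w) p / 2| ≤ ((B / 16) ^ 2 + (B * t / 16) ^ 2) / 2 := by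
        unfold g2
        rw [abs_of_nonneg (by positivity)]
        linarith
      have h10 := abs_add_le (gx u p * gx (WW N a w) p + gy u p * gy (WW N a w) p)
        (g2 (WW N a w) p / 2)
      have h11 := abs_add_le (gx u p * gx (WW N a w) p) (gy u p * gy (WW N a w) p)
      simp only [hCr]
      have hB2 : 0 ≤ B ^ 2 := by positivity
      nlinarith [mul_nonneg hB2 ht0, mul_nonneg hB2 (mul_nonneg ht0 ht0)]
    · rw [rect_vol hl.le hh.le]
  -- third bracket
  have hI3 : -((∫ p, WW N a w p ∂fp) - WW N a w 0) ≤ B * d := by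
    have h1 : |∫ p, WW N a w p ∂fp| ≤ B * d / 16 := by
      have h2 := norm_integral_le_of_norm_le_const (μ := fp) (f := WW N a w) (C := B * d / 16)
        (Eventually.of_forall fun p => (hpt p).1)
      simpa using h2
    have h2 := (hpt 0).1
    rw [abs_le] at h1 h2
    have h3 : 0 < B * d := by positivity
    linarith [h1.1, h2.2]
  -- second bracket
  have hI2 : ∫ p, Cr p ∂ν ≤ -(1 / 512) * ∑ k ∈ Finset.range N, a k ^ 2 * d + B * κ * l +
      2 * l * B ^ 2 * (t + t ^ 2) := by
    -- split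
    have hsplit : ∀ p, Cr p = (∑ k ∈ Finset.range N, (a k / 64 * ((gx u p - a k) * gx (w k) p) +
        a k ^ 2 / 64 * gx (w k) p + (a k / 64) ^ 2 / 2 * (gx (w k) p) ^ 2)) +
        (gy u p * gy (WW N a w) p + (gy (WW N a w) p) ^ 2 / 2) := by
      intro p
      have h1 := (hpt p).2.2.2
      simp only [hCr]
      unfold g2
      have h2 : gx u p * gx (WW N a w) p = ∑ k ∈ Finset.range N,
          (a k / 64 * ((gx u p - a k) * gx (w k) p) + a k ^ 2 / 64 * gx (w k) p) := by
        rw [WW_gx hs, Finset.mul_sum]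
        refine Finset.sum_congr rfl fun k _ => ?_
        ring
      have h3 : (gx (WW N a w) p) ^ 2 / 2 = ∑ k ∈ Finset.range N,
          ((a k / 64) ^ 2 / 2 * (gx (w k) p) ^ 2) := by
        rw [h1, Finset.sum_div]
        refine Finset.sum_congr rfl fun k _ => ?_
        ring
      rw [Finset.sum_add_distrib, ← h2, ← h3]
      ring
    have hcT : ∀ k < N, Continuous (fun p => (gx u p - a k) * gx (w k) p) := fun k hk =>
      (hcgu.sub continuous_const).mul (gx_cont (hs k hk))
    have hsT : ∀ k < N, HasCompactSupport (fun p => (gx u p - a k) * gx (w k) p) := fun k hk =>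
      HasCompactSupport.intro (hcs k hk) fun p hp => by
        show (gx u p - a k) * gx (w k) p = 0
        rw [gx_supp hp, mul_zero]
    have hcQ : ∀ k < N, Continuous (fun p => (gx (w k) p) ^ 2) := fun k hk =>
      (gx_cont (hs k hk)).pow 2
    have hsQ : ∀ k < N, HasCompactSupport (fun p => (gx (w k) p) ^ 2) := fun k hk =>
      HasCompactSupport.intro (hcs k hk) fun p hp => by
        show (gx (w k) p) ^ 2 = 0
        rw [gx_supp hp]; ring
    have hi1 : ∀ k < N, Integrable (fun p => (gx u p - a k) * gx (w k) p) ν := fun k hk =>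
      hint _ (hcT k hk) (hsT k hk)
    have hi2 : ∀ k < N, Integrable (gx (w k)) ν := fun k hk =>
      hint _ (gx_cont (hs k hk)) (gx_cs (hcs k hk))
    have hi3 : ∀ k < N, Integrable (fun p => (gx (w k) p) ^ 2) ν := fun k hk =>
      hint _ (hcQ k hk) (hsQ k hk)
    have hi4 : Integrable (fun p => gy u p * gy (WW N a w) p + (gy (WW N a w) p) ^ 2 / 2) ν := by
      apply hint _ ((hcgyu.mul hcgyW).add ((hcgyW.pow 2).div_const 2))
      refine HasCompactSupport.intro hWc fun p hp => ?_
      show gy u p * gy (WW N a w) p + (gy (WW N a w) p) ^ 2 / 2 = 0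
      rw [gy_supp hp]; ring
    have hi5 : ∀ k ∈ Finset.range N, Integrable (fun p => a k / 64 * ((gx u p - a k) * gx (w k) p) +
        a k ^ 2 / 64 * gx (w k) p + (a k / 64) ^ 2 / 2 * (gx (w k) p) ^ 2) ν := by
      intro k hk
      have hk' := Finset.mem_range.1 hk
      exact (((hi1 k hk').const_mul _).add ((hi2 k hk').const_mul _)).add ((hi3 k hk').const_mul _)
    have hsum : ∫ p, Cr p ∂ν = (∑ k ∈ Finset.range N,
        (a k / 64 * (∫ p, (gx u p - a k) * gx (w k) p ∂ν) + a k ^ 2 / 64 * (∫ p, gx (w k) p ∂ν) +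
          (a k / 64) ^ 2 / 2 * (∫ p, (gx (w k) p) ^ 2 ∂ν))) +
        ∫ p, (gy u p * gy (WW N a w) p + (gy (WW N a w) p) ^ 2 / 2) ∂ν := by
      simp only [hsplit]
      rw [integral_add (integrable_finsetSum _ hi5) hi4, integral_finsetSum _ hi5]
      congr 1
      refine Finset.sum_congr rfl fun k hk => ?_
      have hk' := Finset.mem_range.1 hk
      have e1 : Integrable (fun p => a k / 64 * ((gx u p - a k) * gx (w k) p)) ν :=
        (hi1 k hk').const_mul _
      have e2 : Integrable (fun p => a k ^ 2 / 64 * gx (w k) p) ν := (hi2 k hk').const_mul _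
      have e3 : Integrable (fun p => (a k / 64) ^ 2 / 2 * (gx (w k) p) ^ 2) ν :=
        (hi3 k hk').const_mul _
      have e4 : Integrable (fun p => a k / 64 * ((gx u p - a k) * gx (w k) p) +
          a k ^ 2 / 64 * gx (w k) p) ν := e1.add e2
      rw [integral_add e4 e3, integral_add e1 e2, integral_const_mul, integral_const_mul,
        integral_const_mul]
    have hνr : ∀ k < N, ν (rect (k * d) ((k + 1) * d) h) ≤ ENNReal.ofReal (13 / 8 * d) := by
      intro k hk
      rw [hν, Measure.restrict_apply (rect_meas _ _ _), inter_comm]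
      exact hmass k hk
    have hk1 : ∀ k < N, |∫ p, (gx u p - a k) * gx (w k) p ∂ν| ≤ κ * 4 * (13 / 8 * d) := by
      intro k hk
      rw [abs_le]
      have hz : ∀ p, p ∉ rect (k * d) ((k + 1) * d) h → (gx u p - a k) * gx (w k) p = 0 := by
        intro p hp
        rw [gx_supp (fun h1 => hp (hsr k hk h1)), mul_zero]
      have hbb : ∀ p ∈ rect (k * d) ((k + 1) * d) h, |(gx u p - a k) * gx (w k) p| ≤ κ * 4 :=
        fun p hp => hmul (hdev k hk p hp) (hbx k hk p)
      constructor
      · have h1 := int_le_of (ν := ν) (f := fun p => -((gx u p - a k) * gx (w k) p)) (c := κ * 4)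
          (v := 13 / 8 * d) (by positivity) (by positivity)
          (fun p hp => by rw [hz p hp, neg_zero]) (fun p hp => by rw [abs_neg]; exact hbb p hp)
          (hνr k hk)
        rw [integral_neg] at h1
        linarith
      · exact int_le_of (by positivity) (by positivity) hz hbb (hνr k hk)
    have hk3 : ∀ k < N, ∫ p, (gx (w k) p) ^ 2 ∂ν ≤ 16 * (13 / 8 * d) := by
      intro k hk
      apply int_le_of (by positivity) (by positivity) _ _ (hνr k hk)
      · intro p hp
        rw [gx_supp (fun h1 => hp (hsr k hk h1))]; ring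
      · intro p _
        rw [abs_of_nonneg (by positivity)]
        have := hsq (hbx k hk p)
        linarith
    have hterm : ∀ k ∈ Finset.range N,
        (a k / 64 * (∫ p, (gx u p - a k) * gx (w k) p ∂ν) + a k ^ 2 / 64 * (∫ p, gx (w k) p ∂ν) +
          (a k / 64) ^ 2 / 2 * (∫ p, (gx (w k) p) ^ 2 ∂ν)) ≤
        -(1 / 512) * (a k ^ 2 * d) + B * κ * d := by
      intro k hk
      have hk' := Finset.mem_range.1 hk
      have h1 : a k / 64 * (∫ p, (gx u p - a k) * gx (w k) p ∂ν) ≤
          (B / 64) * (κ * 4 * (13 / 8 * d)) := by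
        have ha : |a k / 64| ≤ B / 64 := by
          rw [abs_div, abs_of_pos (by norm_num : (0 : ℝ) < 64)]
          have := hak k hk'
          gcongr
        exact (le_abs_self _).trans (hmul ha (hk1 k hk'))
      have h2 : a k ^ 2 / 64 * (∫ p, gx (w k) p ∂ν) ≤ a k ^ 2 / 64 * (-(3 / 8) * d + d / 64) :=
        mul_le_mul_of_nonneg_left (hgain k hk') (by positivity)
      have h3 : (a k / 64) ^ 2 / 2 * (∫ p, (gx (w k) p) ^ 2 ∂ν) ≤
          (a k / 64) ^ 2 / 2 * (16 * (13 / 8 * d)) :=
        mul_le_mul_of_nonneg_left (hk3 k hk') (by positivity)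
      have h4 : 0 ≤ a k ^ 2 * d := by positivity
      have h5 : 0 ≤ B * κ * d := by positivity
      nlinarith
    have hlast : ∫ p, (gy u p * gy (WW N a w) p + (gy (WW N a w) p) ^ 2 / 2) ∂ν ≤
        B ^ 2 * (t + t ^ 2) * (2 * l) := by
      apply int_le_of (R := univ) (by positivity) (by positivity)
        (fun p hp => absurd (mem_univ p) hp) _ hνu
      intro p _
      obtain ⟨-, -, h2, -⟩ := hpt p
      obtain ⟨-, h4⟩ := hub p
      have h6 := hmul h4 h2
      have h8 := hsq h2
      have h9 : |(gy (WW N a w) p) ^ 2 / 2| ≤ (B * t / 16) ^ 2 / 2 := by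
        rw [abs_of_nonneg (by positivity)]
        linarith
      have h10 := abs_add_le (gy u p * gy (WW N a w) p) ((gy (WW N a w) p) ^ 2 / 2)
      have hB2 : 0 ≤ B ^ 2 := by positivity
      nlinarith [mul_nonneg hB2 ht0, mul_nonneg hB2 (mul_nonneg ht0 ht0)]
    rw [hsum]
    have hS := Finset.sum_le_sum hterm
    have h1 : (N : ℝ) * (B * κ * d) = B * κ * l := by rw [← hNd]; ring
    have h2 : ∑ k ∈ Finset.range N, (-(1 / 512) * (a k ^ 2 * d) + B * κ * d) =
        -(1 / 512) * ∑ k ∈ Finset.range N, a k ^ 2 * d + B * κ * l := by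
      rw [Finset.sum_add_distrib, ← Finset.mul_sum, Finset.sum_const, Finset.card_range,
        nsmul_eq_mul, h1]
    rw [h2] at hS
    linarith
  have hm2 := mul_le_mul_of_nonneg_left hI2 hm.le
  rw [sub_zero] at hI1
  nlinarith

end Pool.Agent.Q222.RN
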