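import Pool.Agent.Q222.RN.Aux0

/-! Project RN: job D3. -/

set_option autoImplicit false

open MeasureTheory Filter Topology Set
open scoped ContDiff ENNReal

namespace Pool.Agent.Q222.RN

open Pool.Agent.Q62.RN

theorem t_D3 (_a1 : S_A1) (c2 : S_C2) (c3 : S_C3) (c4 : S_C4) (d1 : S_D1) (d2 : S_D2) : S_D3 := by
  intro l m Ω fp S u hl hm hΩ hS0Ω hfp hu hSm hS0 hSH hlim ε hε
  obtain ⟨⟨B, hB, hBb⟩, hunif, ⟨h0, hh0, hrect⟩, hriem⟩ := d1 l Ω u hl hΩ hS0Ω hu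
  obtain ⟨⟨χ, K, hχ⟩, hplat⟩ := c2
  have hK := hχ.hK
  -- `κ`
  obtain ⟨κ, hκ, hκε⟩ : ∃ κ > 0, m * (B * κ * l) ≤ ε / 8 := by
    refine ⟨ε / (8 * (m * B * l)), by positivity, ?_⟩
    apply le_of_eq
    field_simp
  obtain ⟨ρ, hρ, hρκ⟩ := hunif κ hκ
  -- `h`
  obtain ⟨h, hh, hhρ, hhh, hhε⟩ : ∃ h > 0, h ≤ ρ / 2 ∧ h ≤ h0 ∧ 2 * h * l * (B ^ 2 * 4) ≤ ε / 8 := by
    refine ⟨min (min (ρ / 2) h0) (ε / (64 * l * B ^ 2)), by positivity,
      (min_le_left _ _).trans (min_le_left _ _), (min_le_left _ _).trans (min_le_right _ _), ?_⟩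
    have h1 : min (min (ρ / 2) h0) (ε / (64 * l * B ^ 2)) ≤ ε / (64 * l * B ^ 2) := min_le_right _ _
    have h2 : 2 * min (min (ρ / 2) h0) (ε / (64 * l * B ^ 2)) * l * (B ^ 2 * 4) ≤
        2 * (ε / (64 * l * B ^ 2)) * l * (B ^ 2 * 4) := by gcongr
    refine h2.trans (le_of_eq ?_)
    field_simp
    norm_num
  -- `N`
  have hd : Tendsto (fun N : ℕ => l / (N : ℝ)) atTop (𝓝 0) := tendsto_const_div_atTop_nhds_zero_nat l
  have ht : Tendsto (fun N : ℕ => K * (l / (N : ℝ)) / h) atTop (𝓝 0) := by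
    have := (hd.const_mul K).div_const h
    simpa using this
  have e1 : ∀ᶠ N : ℕ in atTop, l / (N : ℝ) ≤ ρ / 2 :=
    hd.eventually_le_const (by positivity)
  have e2 : ∀ᶠ N : ℕ in atTop, B * (l / (N : ℝ)) ≤ ε / 8 := by
    have := hd.const_mul B
    rw [mul_zero] at this
    exact this.eventually_le_const (by positivity)
  have e3 : ∀ᶠ N : ℕ in atTop, K * (l / (N : ℝ)) / h ≤ 1 := ht.eventually_le_const one_pos
  have e4 : ∀ᶠ N : ℕ in atTop, m * (2 * l * B ^ 2 * (K * (l / (N : ℝ)) / h +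
      (K * (l / (N : ℝ)) / h) ^ 2)) ≤ ε / 8 := by
    have h1 : Tendsto (fun N : ℕ => m * (2 * l * B ^ 2 * (K * (l / (N : ℝ)) / h +
      (K * (l / (N : ℝ)) / h) ^ 2))) atTop (𝓝 (m * (2 * l * B ^ 2 * (0 + 0 ^ 2)))) :=
      ((ht.add (ht.pow 2)).const_mul _).const_mul _
    have h2 : m * (2 * l * B ^ 2 * (0 + 0 ^ 2)) = 0 := by ring
    rw [h2] at h1
    exact h1.eventually_le_const (by positivity)
  have e5 : ∀ᶠ N : ℕ in atTop, (∫ x in (0:ℝ)..l, gx u x ^ 2) - 64 * ε / m <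
      ∑ k ∈ Finset.range N, gx u ((k * (l / N) : ℝ) : ℂ) ^ 2 * (l / N) := by
    apply hriem.eventually_const_lt
    have : 0 < 64 * ε / m := by positivity
    linarith
  obtain ⟨N, hN1, hN2, hN3, hN4, hN5, hN⟩ := (e1.and (e2.and (e3.and (e4.and (e5.and
    (eventually_gt_atTop 0)))))).exists
  have hN' : (0 : ℝ) < N := by exact_mod_cast hN
  set d : ℝ := l / N with hdd
  have hd0 : 0 < d := div_pos hl hN'
  have hNd : N * d = l := by rw [hdd]; field_simp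
  have hcell : ∀ k : ℕ, (k : ℝ) * d < (k + 1) * d := fun k => by nlinarith
  have hkl : ∀ k < N, ((k : ℝ) + 1) * d ≤ l := by
    intro k hk
    have : (k : ℝ) + 1 ≤ N := by exact_mod_cast hk
    calc ((k : ℝ) + 1) * d ≤ N * d := mul_le_mul_of_nonneg_right this hd0.le
      _ = l := hNd
  have hψ : ∀ k : ℕ, ∃ ψ, Plateau (k * d) ((k + 1) * d) ψ := fun k => hplat _ _ (hcell k)
  choose ψ hψ using hψ
  have hSf : ∀ n, H1 (S n) < ⊤ := fun n => (hSH n).trans_lt ENNReal.ofReal_lt_top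
  have hgood : ∀ᶠ n in atTop, ∀ k ∈ Finset.range N, Good l (k * d) ((k + 1) * d) h χ (ψ k) (S n) := by
    rw [Filter.eventually_all_finset]
    intro k hk
    exact c4 l _ _ h K χ (ψ k) S hl (by positivity) (hcell k) (hkl k (Finset.mem_range.1 hk)) hh hχ
      (hψ k) hSm hS0 hSf hlim
  have hJ : ∀ᶠ n in atTop, J m fp (Measure.dirac 0) (H1.restrict (S n)) u ≤
      J m fp (Measure.dirac 0) (mu0 l) u + ε / 8 := by
    have h1 := hlim (g2 u) (g2_cont hu.1)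
    have h2 := h1.eventually_le_const (show (∫ p, g2 u p ∂(mu0 l)) <
      (∫ p, g2 u p ∂(mu0 l)) + ε / (4 * m) by
        have : 0 < ε / (4 * m) := by positivity
        linarith)
    filter_upwards [h2] with n hn
    unfold J
    have h3 : m / 2 * (∫ p in S n, g2 u p ∂H1) ≤ m / 2 * ((∫ p, g2 u p ∂(mu0 l)) + ε / (4 * m)) :=
      mul_le_mul_of_nonneg_left hn (by positivity)
    have h4 : m / 2 * ((∫ p, g2 u p ∂(mu0 l)) + ε / (4 * m)) =
        m / 2 * (∫ p, g2 u p ∂(mu0 l)) + ε / 8 := by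
      field_simp
      ring
    rw [h4] at h3
    linarith
  filter_upwards [hgood, hJ] with n hgn hJn
  have hw : ∀ k : ℕ, ∃ w : ℂ → ℝ, k < N → Cell (k * d) ((k + 1) * d) h K (d / 64) (S n) w := by
    intro k
    by_cases hk : k < N
    · obtain ⟨w, hw⟩ := c3 l _ _ h K (d / 64) χ (ψ k) (S n) hl (by positivity) (hcell k) (hkl k hk) hh
        (by positivity) hχ (hψ k) (hSm n) (hS0 n) (hSf n) (hgn k (Finset.mem_range.2 hk))
      exact ⟨w, fun _ => hw⟩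
    · exact ⟨0, fun h1 => absurd h1 hk⟩
  choose w hw using hw
  set a : ℕ → ℝ := fun k => gx u ((k * d : ℝ) : ℂ) with ha
  have hdev : ∀ k < N, ∀ p ∈ rect (k * d) ((k + 1) * d) h, |gx u p - a k| ≤ κ := by
    intro k _ p hp
    apply hρκ
    obtain ⟨h1, h2, h3⟩ := hp
    refine (Complex.norm_le_abs_re_add_abs_im _).trans ?_
    rw [Complex.sub_re, Complex.sub_im, Complex.ofReal_re, Complex.ofReal_im, sub_zero,
      abs_of_nonneg (by linarith)]
    linarith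
  have h2l : H1 (S n) ≤ ENNReal.ofReal (2 * l) :=
    (hSH n).trans (ENNReal.ofReal_le_ofReal (by linarith))
  obtain ⟨hT, hJJ⟩ := d2 l h K B κ m N Ω (S n) u a w fp hl hh hK hB hκ hm hN
    ((rect_mono le_rfl le_rfl hhh).trans hrect) (hSm n) (hS0 n) h2l hu hBb hfp
    (fun k hk => ⟨(hBb _).1, hdev k hk, hw k hk⟩)
  refine ⟨_, hT, hJJ.trans ?_⟩
  have g1 : 2 * h * l * (B ^ 2 * (1 + K * d / h) ^ 2) ≤ ε / 8 := by
    refine le_trans ?_ hhε
    have h1 : 0 ≤ K * d / h := by positivity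
    have h2 : (1 + K * d / h) ^ 2 ≤ 4 := by nlinarith
    gcongr
  have g2 : m / 512 * ((∫ x in (0:ℝ)..l, gx u x ^ 2) - 64 * ε / m) ≤
      m / 512 * ∑ k ∈ Finset.range N, a k ^ 2 * d :=
    mul_le_mul_of_nonneg_left hN5.le (by positivity)
  have g3 : m / 512 * ((∫ x in (0:ℝ)..l, gx u x ^ 2) - 64 * ε / m) =
      m / 512 * (∫ x in (0:ℝ)..l, gx u x ^ 2) - ε / 8 := by
    field_simp
    ring
  rw [g3] at g2
  rw [mul_add m]
  linarith

end Pool.Agent.Q222.RN
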